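import Mathlib
import Pool.Agent.H53.RQ.Defs

/-!
MP_1e629d_co: the Pieri rule for the recursively symmetrised Schur `P` polynomials
`Pool.H53.RQ.P x l J` (one fixed finite set `J` of points, all `k` at once).

* `Q x J k` = coefficient of `z^k` in `∏_{i∈J} (1 + z x_i)/(1 - z x_i)`; `Q x J k = 2 P x [k] J`
  for `k ≥ 1`.
* `pie l F b k` = sum over the strict partitions `ν` with `ν/l` a horizontal strip of size `k` and
  first row at most `b` of `2^{number of rows in which a strip component ends} F ν`, written as a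
  recursion on the rows (a row which is full, i.e. reaches the old length of the row above, has
  weight `1`, a row with new boxes which is not full has weight `2`, a row without new boxes `1`).
* `pieri`: `P x l J * Q x J k = pie l (fun ν => P x ν J) b k` for `b > l_1 + k`.
-/

set_option autoImplicit false

open Finset

namespace Pool.H51.PR

open Pool.H53.RQ

/-- `q_k`. -/
noncomputable def Q (x : ℕ → ℝ) (J : Finset ℕ) (k : ℕ) : ℝ :=
  if k = 0 then 1 else 2 * P x [k] J

/-- weight of a row of old length `a`, `i` new boxes, upper bound `b`. -/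
def om (b a i : ℕ) : ℝ := if i = 0 then 1 else if a + i < b then 2 else if a + i = b then 1 else 0

/-- the Pieri functional. -/
noncomputable def pie : List ℕ → (List ℕ → ℝ) → ℕ → ℕ → ℝ
  | [], F, b, k => if k = 0 then F [] else om b 0 k * F [k]
  | a :: l, F, b, k => ∑ i ∈ range (k + 1), om b a i * pie l (fun ν => F ((a + i) :: ν)) a (k - i)

/-- product in the definition of `P`. -/
noncomputable def W (x : ℕ → ℝ) (J : Finset ℕ) (j : ℕ) : ℝ :=
  ∏ i ∈ J.erase j, (x j + x i) / (x j - x i)

theorem P_cons (x : ℕ → ℝ) (a : ℕ) (l : List ℕ) (J : Finset ℕ) :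
    P x (a :: l) J = ∑ j ∈ J, x j ^ a * W x J j * P x l (J.erase j) := by
  rw [P]; rfl

theorem P_nil (x : ℕ → ℝ) (J : Finset ℕ) : P x [] J = 1 := by
  rw [P]

theorem P_one (x : ℕ → ℝ) (k : ℕ) (J : Finset ℕ) :
    P x [k] J = ∑ j ∈ J, x j ^ k * W x J j := by
  rw [P_cons]
  exact sum_congr rfl fun j _ => by rw [P_nil, mul_one]

/-- the identity for `k = 0`. -/
theorem P_zero (x : ℕ → ℝ) (J : Finset ℕ) (hx : Set.InjOn x J) (h0 : ∀ j ∈ J, x j ≠ 0) :
    2 * P x [0] J = 1 - (-1) ^ J.card := by
  obtain ⟨n, hn⟩ : ∃ n, n ∉ J := Infinite.exists_notMem_finset J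
  set v : ℕ → ℝ := Function.update x n 0 with hv
  have hvn : v n = 0 := by rw [hv, Function.update_self]
  have hvj : ∀ j ∈ J, v j = x j := fun j hj => by
    rw [hv, Function.update_of_ne]
    rintro rfl
    exact hn hj
  set p : Polynomial ℝ := ∏ i ∈ J, (Polynomial.X - Polynomial.C (-(x i))) with hp
  have hmon : p.Monic := Polynomial.monic_prod_of_monic _ _ fun i _ => Polynomial.monic_X_sub_C _
  have hdeg : p.degree = J.card := by
    rw [hp, Polynomial.degree_prod]
    simp
  have hinj : Set.InjOn v (insert n J : Finset ℕ) := by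
    intro a ha b hb hab
    simp only [coe_insert, Set.mem_insert_iff, mem_coe] at ha hb
    rcases ha with rfl | ha <;> rcases hb with rfl | hb
    · rfl
    · rw [hvn, hvj b hb] at hab
      exact absurd hab.symm (h0 b hb)
    · rw [hvn, hvj a ha] at hab
      exact absurd hab (h0 a ha)
    · rw [hvj a ha, hvj b hb] at hab
      exact hx ha hb hab
  have key := Lagrange.leadingCoeff_eq_sum (s := insert n J) (v := v) hinj (P := p) (by
    rw [hdeg, card_insert_of_notMem hn]; push_cast; rfl)
  rw [hmon.leadingCoeff, sum_insert hn] at key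
  have heval : ∀ t : ℝ, p.eval t = ∏ i ∈ J, (t + x i) := fun t => by
    rw [hp, Polynomial.eval_prod]
    exact prod_congr rfl fun i _ => by simp
  have h1 : p.eval (v n) / ∏ j ∈ (insert n J).erase n, (v n - v j) = (-1) ^ J.card := by
    rw [hvn, heval, erase_insert hn, ← prod_div_distrib]
    rw [← prod_const]
    refine prod_congr rfl fun j hj => ?_
    rw [hvj j hj]
    have := h0 j hj
    field_simp
    ring
  have h2 : ∀ j ∈ J, p.eval (v j) / ∏ i ∈ (insert n J).erase j, (v j - v i) = 2 * W x J j := by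
    intro j hj
    have hjn : j ≠ n := by
      rintro rfl
      exact hn hj
    rw [erase_insert_of_ne hjn.symm, prod_insert (fun h => hn (mem_of_mem_erase h)), heval,
      hvj j hj, hvn, ← mul_prod_erase J (fun i => x j + x i) hj, W]
    have h3 : ∏ i ∈ J.erase j, (x j - v i) = ∏ i ∈ J.erase j, (x j - x i) :=
      prod_congr rfl fun i hi => by rw [hvj i (mem_of_mem_erase hi)]
    rw [h3, prod_div_distrib]
    have hne : ∏ i ∈ J.erase j, (x j - x i) ≠ 0 := by
      rw [prod_ne_zero_iff]
      intro i hi h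
      exact (mem_erase.mp hi).1 (hx (mem_of_mem_erase hi) hj (by linarith))
    have := h0 j hj
    field_simp
    ring
  rw [h1, sum_congr rfl h2, ← mul_sum] at key
  rw [P_one]
  simp only [pow_zero, one_mul]
  linarith

theorem W_erase (x : ℕ → ℝ) (J : Finset ℕ) {j y : ℕ} (hy : y ∈ J) (hjy : j ≠ y) :
    W x J j = (x j + x y) / (x j - x y) * W x (J.erase y) j := by
  rw [W, W, erase_right_comm, ← mul_prod_erase (J.erase j) _ (mem_erase.mpr ⟨hjy.symm, hy⟩)]

/-- power sums with the weights. -/
theorem S_rec (x : ℕ → ℝ) (J : Finset ℕ) (hx : Set.InjOn x J) {y : ℕ} (hy : y ∈ J) (k : ℕ) :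
    P x [k + 1] J = P x [k + 1] (J.erase y) + x y * (P x [k] J + P x [k] (J.erase y)) := by
  simp only [P_one]
  rw [← add_sum_erase J _ hy, ← add_sum_erase J (fun j => x j ^ k * W x J j) hy]
  have h : ∑ j ∈ J.erase y, x j ^ (k + 1) * W x J j
      = x y * ∑ j ∈ J.erase y, x j ^ k * W x J j
        + (∑ j ∈ J.erase y, x j ^ (k + 1) * W x (J.erase y) j
          + x y * ∑ j ∈ J.erase y, x j ^ k * W x (J.erase y) j) := by
    rw [mul_sum, mul_sum, ← sum_add_distrib, ← sum_add_distrib]
    refine sum_congr rfl fun j hj => ?_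
    have hjy := (mem_erase.mp hj).1
    have hne : x j - x y ≠ 0 := fun h => hjy (hx (mem_of_mem_erase hj) hy (by linarith))
    rw [W_erase x J hy hjy]
    field_simp
    ring
  rw [h]
  ring

theorem Q_rec (x : ℕ → ℝ) (J : Finset ℕ) (hx : Set.InjOn x J) (h0 : ∀ j ∈ J, x j ≠ 0) {y : ℕ}
    (hy : y ∈ J) (k : ℕ) :
    Q x J (k + 1) = Q x (J.erase y) (k + 1) + x y * (Q x J k + Q x (J.erase y) k) := by
  have hx' : Set.InjOn x (J.erase y) := hx.mono (by
    intro a ha
    exact mem_of_mem_erase ha)
  have h0' : ∀ j ∈ J.erase y, x j ≠ 0 := fun j hj => h0 j (mem_of_mem_erase hj)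
  rcases Nat.eq_zero_or_pos k with rfl | hk
  · have e1 := P_zero x J hx h0
    have e2 := P_zero x (J.erase y) hx' h0'
    have hc : J.card = (J.erase y).card + 1 := by
      rw [card_erase_of_mem hy]
      have := card_pos.mpr ⟨y, hy⟩
      omega
    rw [hc, pow_succ] at e1
    have e3 := S_rec x J hx hy 0
    have e4 : P x [0] J + P x [0] (J.erase y) = 1 := by linarith
    rw [e4] at e3
    simp only [Q, Nat.add_eq_zero_iff, one_ne_zero, and_false, if_false, if_true]
    rw [e3]
    ring
  · have e3 := S_rec x J hx hy k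
    simp only [Q, Nat.add_eq_zero_iff, one_ne_zero, and_false, if_false, hk.ne']
    rw [e3]
    ring

/-- the weights `1, 2, 2, …`. -/
def w (i : ℕ) : ℝ := if i = 0 then 1 else 2

theorem Q_sum (x : ℕ → ℝ) (J : Finset ℕ) (hx : Set.InjOn x J) (h0 : ∀ j ∈ J, x j ≠ 0) {y : ℕ}
    (hy : y ∈ J) (k : ℕ) :
    Q x J k = ∑ i ∈ range (k + 1), w i * x y ^ i * Q x (J.erase y) (k - i) := by
  induction k with
  | zero => simp [Q, w]
  | succ k ih =>
    rw [Q_rec x J hx h0 hy k, sum_range_succ', ih]
    have h1 : ∑ i ∈ range (k + 1), w (i + 1) * x y ^ (i + 1) * Q x (J.erase y) (k + 1 - (i + 1))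
        = x y * (∑ i ∈ range (k + 1), w i * x y ^ i * Q x (J.erase y) (k - i)
          + Q x (J.erase y) k) := by
      rw [sum_range_succ', sum_range_succ', mul_add, mul_add, mul_sum]
      have : ∑ i ∈ range k, w (i + 1 + 1) * x y ^ (i + 1 + 1)
            * Q x (J.erase y) (k + 1 - (i + 1 + 1))
          = ∑ i ∈ range k, x y * (w (i + 1) * x y ^ (i + 1) * Q x (J.erase y) (k - (i + 1))) := by
        refine sum_congr rfl fun i _ => ?_
        rw [show k + 1 - (i + 1 + 1) = k - (i + 1) by omega]
        simp only [w]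
        simp
        ring
      rw [this]
      simp [w]
      ring
    rw [h1]
    simp [w]
    ring

end Pool.H51.PR
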