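import Mathlib
import Pool.Agent.H51.PR.Pieri

/-!
MP_1e629d_co: the Pieri rule, second part: antisymmetry of `P` in its first two entries,
linearity of `pie`, the main theorem `pieri`.
-/

set_option autoImplicit false

open Finset

namespace Pool.H51.PR

open Pool.H53.RQ

/-- expansion along the first two entries. -/
theorem P_cons_cons (x : ℕ → ℝ) (a b : ℕ) (l : List ℕ) (J : Finset ℕ) :
    P x (a :: b :: l) J = ∑ j ∈ J, ∑ i ∈ J.erase j,
      x j ^ a * x i ^ b * W x J j * W x (J.erase j) i * P x l ((J.erase j).erase i) := by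
  rw [P_cons]
  refine sum_congr rfl fun j _ => ?_
  rw [P_cons, mul_sum]
  exact sum_congr rfl fun i _ => by ring

/-- antisymmetry in the first two entries. -/
theorem P_swap (x : ℕ → ℝ) (a b : ℕ) (l : List ℕ) (J : Finset ℕ) (hx : Set.InjOn x J) :
    P x (a :: b :: l) J = - P x (b :: a :: l) J := by
  rw [P_cons_cons, P_cons_cons, ← sum_neg_distrib]
  have hcomm : ∑ j ∈ J, -∑ i ∈ J.erase j,
      x j ^ b * x i ^ a * W x J j * W x (J.erase j) i * P x l ((J.erase j).erase i)
      = ∑ j ∈ J, ∑ i ∈ J.erase j,
        -(x i ^ b * x j ^ a * W x J i * W x (J.erase i) j * P x l ((J.erase i).erase j)) := by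
    simp_rw [← sum_neg_distrib]
    refine sum_comm' fun j i => ?_
    simp only [mem_erase]
    tauto
  rw [hcomm]
  refine sum_congr rfl fun j hj => sum_congr rfl fun i hi => ?_
  obtain ⟨hij, hiJ⟩ := mem_erase.mp hi
  have hji : j ∈ J.erase i := mem_erase.mpr ⟨Ne.symm hij, hj⟩
  have hne : x i - x j ≠ 0 := fun h => hij (hx hiJ hj (by linarith))
  have hne' : x j - x i ≠ 0 := fun h => hne (by linarith)
  rw [W_erase x J hiJ (Ne.symm hij), W_erase x J hj hij, erase_right_comm (a := j) (b := i)]
  have : (x i + x j) / (x i - x j) = - ((x j + x i) / (x j - x i)) := by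
    rw [eq_comm, ← div_neg, neg_sub, add_comm]
  rw [this]
  ring

theorem pie_smul (l : List ℕ) (F : List ℕ → ℝ) (b k : ℕ) (c : ℝ) :
    pie l (fun ν => c * F ν) b k = c * pie l F b k := by
  induction l generalizing F b k with
  | nil =>
    simp only [pie]
    split_ifs <;> ring
  | cons a l ih =>
    simp only [pie]
    rw [mul_sum]
    refine sum_congr rfl fun i _ => ?_
    rw [ih (fun ν => F ((a + i) :: ν))]
    ring

theorem pie_neg (l : List ℕ) (F : List ℕ → ℝ) (b k : ℕ) :
    pie l (fun ν => - F ν) b k = - pie l F b k := by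
  have := pie_smul l F b k (-1)
  simpa using this

theorem pie_sum {ι : Type*} (l : List ℕ) (s : Finset ι) (F : ι → List ℕ → ℝ) (b k : ℕ) :
    pie l (fun ν => ∑ j ∈ s, F j ν) b k = ∑ j ∈ s, pie l (F j) b k := by
  induction l generalizing F b k with
  | nil =>
    simp only [pie]
    split_ifs
    · rfl
    · rw [mul_sum]
  | cons a l ih =>
    simp only [pie]
    rw [sum_comm]
    refine sum_congr rfl fun i _ => ?_
    rw [ih (fun j ν => F j ((a + i) :: ν)), mul_sum]

theorem pie_congr (l : List ℕ) (F G : List ℕ → ℝ) (b k : ℕ) (h : ∀ ν, F ν = G ν) :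
    pie l F b k = pie l G b k := by
  rw [show F = G from funext h]

/-- an antisymmetric sum vanishes. -/
theorem antisymm_sum (K : ℕ) (u : ℕ → ℝ) (A : ℕ → ℕ → ℝ) (hA : ∀ i j, A i j = - A j i) :
    ∑ i ∈ range (K + 1), ∑ j ∈ range (K - i + 1), u i * u j * A i j = 0 := by
  have h : ∑ i ∈ range (K + 1), ∑ j ∈ range (K - i + 1), u i * u j * A i j
      = ∑ j ∈ range (K + 1), ∑ i ∈ range (K - j + 1), u i * u j * A i j := by
    refine sum_comm' fun i j => ?_
    simp only [mem_range]
    omega
  have h2 : ∑ j ∈ range (K + 1), ∑ i ∈ range (K - j + 1), u i * u j * A i j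
      = - ∑ j ∈ range (K + 1), ∑ i ∈ range (K - j + 1), u j * u i * A j i := by
    rw [← sum_neg_distrib]
    refine sum_congr rfl fun j _ => ?_
    rw [← sum_neg_distrib]
    refine sum_congr rfl fun i _ => ?_
    rw [hA i j]
    ring
  linarith

theorem antisymm_sum1 (K : ℕ) (u : ℕ → ℝ) (A : ℕ → ℕ → ℝ) (hA : ∀ i j, A i j = - A j i) :
    ∑ i ∈ range (K + 1), u i * u (K - i) * A i (K - i) = 0 := by
  have h : ∑ i ∈ range (K + 1), u i * u (K - i) * A i (K - i)
      = ∑ i ∈ range (K + 1), u (K - i) * u i * A (K - i) i := by
    rw [← sum_range_reflect]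
    refine sum_congr rfl fun i hi => ?_
    rw [mem_range] at hi
    rw [show K + 1 - 1 - i = K - i by omega, show K - (K - i) = i by omega]
  have h2 : ∑ i ∈ range (K + 1), u (K - i) * u i * A (K - i) i
      = - ∑ i ∈ range (K + 1), u i * u (K - i) * A i (K - i) := by
    rw [← sum_neg_distrib]
    refine sum_congr rfl fun i _ => ?_
    rw [hA (K - i) i]
    ring
  linarith

/-- difference of two bounds, empty tail. -/
theorem pie_diff_nil (F : List ℕ → ℝ) (a B m : ℕ) (ha : 0 < a) (hB : m < B) :
    pie [] F B m - pie [] F a m = if a ≤ m then w (m - a) * F [m] else 0 := by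
  simp only [pie, om, w, zero_add]
  split_ifs <;> first | omega | ring

/-- difference of two bounds. -/
theorem pie_diff_cons (F : List ℕ → ℝ) (c : ℕ) (l : List ℕ) (a B m : ℕ) (hc : c < a)
    (hB : c + m < B) :
    pie (c :: l) F B m - pie (c :: l) F a m
      = if a ≤ c + m then ∑ j ∈ range (c + m - a + 1),
          w j * pie l (fun ν => F ((a + j) :: ν)) c (c + m - a - j) else 0 := by
  simp only [pie]
  rw [← sum_sub_distrib]
  have h1 : ∀ i ∈ range (m + 1), om B c i * pie l (fun ν => F ((c + i) :: ν)) c (m - i)
      - om a c i * pie l (fun ν => F ((c + i) :: ν)) c (m - i)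
      = if a ≤ c + i then w (c + i - a) * pie l (fun ν => F ((c + i) :: ν)) c (m - i) else 0 := by
    intro i hi
    rw [mem_range] at hi
    simp only [om, w]
    split_ifs <;> first | omega | ring
  rw [sum_congr rfl h1]
  split_ifs with h
  · obtain ⟨d, rfl⟩ : ∃ d, a = c + d := ⟨a - c, by omega⟩
    have h2 : m + 1 = d + (c + m - (c + d) + 1) := by omega
    rw [h2, sum_range_add]
    have h3 : ∑ i ∈ range d, (if c + d ≤ c + i then
        w (c + i - (c + d)) * pie l (fun ν => F ((c + i) :: ν)) c (m - i) else 0) = 0 := by
      refine sum_eq_zero fun i hi => ?_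
      rw [mem_range] at hi
      rw [if_neg (by omega)]
    rw [h3, zero_add]
    refine sum_congr rfl fun j hj => ?_
    rw [if_pos (by omega)]
    rw [show c + (d + j) - (c + d) = j by omega, show c + (d + j) = c + d + j by omega,
      show m - (d + j) = c + m - (c + d) - j by omega]
  · refine sum_eq_zero fun i hi => ?_
    rw [mem_range] at hi
    rw [if_neg (by omega)]

/-- **Pieri rule** for the symmetrised Schur `P` polynomials. -/
theorem pieri (x : ℕ → ℝ) (l : List ℕ) (hl : l.Pairwise (· > ·)) (hl0 : ∀ a ∈ l, 0 < a)
    (J : Finset ℕ) (hx : Set.InjOn x J) (h0 : ∀ j ∈ J, x j ≠ 0) (k b : ℕ)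
    (hb : l.headD 0 + k < b) :
    P x l J * Q x J k = pie l (fun ν => P x ν J) b k := by
  induction l generalizing J k b with
  | nil =>
    simp only [pie, P_nil, one_mul, Q, om]
    rw [List.headD_nil] at hb
    split_ifs <;> first | omega | simp
  | cons a l ih =>
    rw [List.pairwise_cons] at hl
    rw [List.headD_cons] at hb
    have ha0 : 0 < a := hl0 a (List.mem_cons_self)
    have hhead : l.headD 0 < a := by
      cases l with
      | nil => simpa using ha0
      | cons c l' => exact hl.1 c (List.mem_cons_self)
    have step1 : P x (a :: l) J * Q x J k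
        = ∑ i ∈ range (k + 1), w i *
            pie l (fun ν => P x ((a + i) :: ν) J) (a + k + 1) (k - i) := by
      rw [P_cons, sum_mul]
      have h1 : ∀ j ∈ J, x j ^ a * W x J j * P x l (J.erase j) * Q x J k
          = ∑ i ∈ range (k + 1), w i *
            pie l (fun ν => x j ^ (a + i) * W x J j * P x ν (J.erase j)) (a + k + 1) (k - i) := by
        intro j hj
        rw [Q_sum x J hx h0 hj k, mul_sum]
        refine sum_congr rfl fun i hi => ?_
        rw [mem_range] at hi
        rw [pie_smul l (fun ν => P x ν (J.erase j)) (a + k + 1) (k - i) (x j ^ (a + i) * W x J j),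
          ← ih hl.2 (fun c hc => hl0 c (List.mem_cons_of_mem _ hc)) (J.erase j)
            (hx.mono (fun t ht => mem_of_mem_erase ht))
            (fun t ht => h0 t (mem_of_mem_erase ht)) (k - i) (a + k + 1) (by omega), pow_add]
        ring
      rw [sum_congr rfl h1, sum_comm]
      refine sum_congr rfl fun i _ => ?_
      rw [← mul_sum, ← pie_sum]
      refine congrArg (fun t => w i * t) (pie_congr _ _ _ _ _ fun ν => ?_)
      rw [P_cons]
    have step2 : pie (a :: l) (fun ν => P x ν J) b k
        = ∑ i ∈ range (k + 1), w i * pie l (fun ν => P x ((a + i) :: ν) J) a (k - i) := by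
      simp only [pie]
      refine sum_congr rfl fun i hi => ?_
      rw [mem_range] at hi
      congr 1
      simp only [om, w]
      split_ifs <;> first | omega | rfl
    rw [step1, step2, ← sub_eq_zero, ← sum_sub_distrib]
    have step3 : ∀ i ∈ range (k + 1),
        w i * pie l (fun ν => P x ((a + i) :: ν) J) (a + k + 1) (k - i)
          - w i * pie l (fun ν => P x ((a + i) :: ν) J) a (k - i)
        = w i * (pie l (fun ν => P x ((a + i) :: ν) J) (a + k + 1) (k - i)
          - pie l (fun ν => P x ((a + i) :: ν) J) a (k - i)) := fun i _ => by ring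
    rw [sum_congr rfl step3]
    cases l with
    | nil =>
      have h4 : ∀ i ∈ range (k + 1), w i *
          (pie [] (fun ν => P x ((a + i) :: ν) J) (a + k + 1) (k - i)
            - pie [] (fun ν => P x ((a + i) :: ν) J) a (k - i))
          = if a ≤ k - i then w i * w (k - i - a) * P x [a + i, k - i] J else 0 := by
        intro i hi
        rw [mem_range] at hi
        rw [pie_diff_nil _ a (a + k + 1) (k - i) ha0 (by omega)]
        split_ifs
        · ring
        · ring
      rw [sum_congr rfl h4]
      by_cases hak : a ≤ k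
      · obtain ⟨K, rfl⟩ : ∃ K, k = a + K := ⟨k - a, by omega⟩
        rw [show a + K + 1 = K + 1 + a by omega, sum_range_add]
        have h5 : ∑ i ∈ range a, (if a ≤ a + K - (K + 1 + i) then
            w (K + 1 + i) * w (a + K - (K + 1 + i) - a) *
              P x [a + (K + 1 + i), a + K - (K + 1 + i)] J else 0) = 0 := by
          refine sum_eq_zero fun i hi => ?_
          rw [mem_range] at hi
          rw [if_neg (by omega)]
        rw [h5, add_zero]
        have h6 := antisymm_sum1 K w (fun i j => P x [a + i, a + j] J)
          (fun i j => P_swap x (a + i) (a + j) [] J hx)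
        rw [← h6]
        refine sum_congr rfl fun i hi => ?_
        rw [mem_range] at hi
        rw [if_pos (by omega), show a + K - i - a = K - i by omega,
          show a + K - i = a + (K - i) by omega]
      · refine sum_eq_zero fun i hi => ?_
        rw [mem_range] at hi
        rw [if_neg (by omega)]
    | cons c l' =>
      have hca : c < a := hl.1 c (List.mem_cons_self)
      have h4 : ∀ i ∈ range (k + 1), w i *
          (pie (c :: l') (fun ν => P x ((a + i) :: ν) J) (a + k + 1) (k - i)
            - pie (c :: l') (fun ν => P x ((a + i) :: ν) J) a (k - i))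
          = if a ≤ c + (k - i) then ∑ j ∈ range (c + (k - i) - a + 1), w i * w j *
              pie l' (fun ν => P x ((a + i) :: (a + j) :: ν) J) c (c + (k - i) - a - j)
            else 0 := by
        intro i hi
        rw [mem_range] at hi
        rw [pie_diff_cons _ c l' a (a + k + 1) (k - i) hca (by omega)]
        split_ifs
        · rw [mul_sum]
          exact sum_congr rfl fun j _ => by ring
        · ring
      rw [sum_congr rfl h4]
      by_cases hak : a ≤ c + k
      · obtain ⟨K, hK⟩ : ∃ K, c + k = a + K := ⟨c + k - a, by omega⟩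
        obtain ⟨d, hd⟩ : ∃ d, a = c + d := ⟨a - c, by omega⟩
        rw [show k + 1 = K + 1 + d by omega, sum_range_add]
        have h5 : ∑ i ∈ range d, (if a ≤ c + (k - (K + 1 + i)) then
            ∑ j ∈ range (c + (k - (K + 1 + i)) - a + 1), w (K + 1 + i) * w j *
              pie l' (fun ν => P x ((a + (K + 1 + i)) :: (a + j) :: ν) J) c
                (c + (k - (K + 1 + i)) - a - j) else 0) = 0 := by
          refine sum_eq_zero fun i hi => ?_
          rw [mem_range] at hi
          rw [if_neg (by omega)]
        rw [h5, add_zero]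
        have h6 := antisymm_sum K w
          (fun i j => pie l' (fun ν => P x ((a + i) :: (a + j) :: ν) J) c (K - i - j))
          (fun i j => by
            rw [show K - i - j = K - j - i by omega, ← pie_neg]
            refine pie_congr _ _ _ _ _ fun ν => ?_
            exact P_swap x (a + i) (a + j) ν J hx)
        rw [← h6]
        refine sum_congr rfl fun i hi => ?_
        rw [mem_range] at hi
        rw [if_pos (by omega), show c + (k - i) - a = K - i by omega]
      · refine sum_eq_zero fun i hi => ?_
        rw [mem_range] at hi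
        rw [if_neg (by omega)]

end Pool.H51.PR
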