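import Mathlib
import Pool.Agent.H51.PR.Pieri2
import Pool.Agent.H71.RW.Defs

/-!
MP_1e629d_co: hook type paths of strict partitions, decomposition by the first row.
-/

set_option autoImplicit false

open Finset

namespace Pool.H51.PR

open Pool.H53.RQ Pool.Agent.H71.RW

/-- the first part (`0` for the empty list). -/
def hd (l : List ℕ) : ℕ := l.headD 0

theorem mem_listsOver {β : Type*} (S : Finset β) (k : ℕ) (ρ : List β) :
    ρ ∈ listsOver S k ↔ ρ.length = k ∧ ∀ r ∈ ρ, r ∈ S := by
  induction k generalizing ρ with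
  | zero =>
    rw [listsOver]
    simp only [mem_singleton, List.length_eq_zero_iff]
    constructor
    · rintro rfl
      simp
    · exact fun h => h.1
  | succ k ih =>
    rw [listsOver]
    simp only [mem_image, mem_product, Prod.exists]
    constructor
    · rintro ⟨r, σ, ⟨hr, hσ⟩, rfl⟩
      rw [ih] at hσ
      refine ⟨by simp [hσ.1], fun s hs => ?_⟩
      rcases List.mem_cons.mp hs with rfl | hs
      · exact hr
      · exact hσ.2 s hs
    · rintro ⟨h1, h2⟩
      cases ρ with
      | nil => simp at h1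
      | cons r σ =>
        refine ⟨r, σ, ⟨h2 r (by simp), (ih σ).mpr ⟨by simpa using h1, fun s hs => h2 s ?_⟩⟩, rfl⟩
        exact List.mem_cons_of_mem _ hs

theorem St_pairwise (l : List ℕ) (h : St l) : l.Pairwise (· > ·) ∧ ∀ a ∈ l, 0 < a := by
  induction l with
  | nil => simp
  | cons n l ih =>
    rw [St] at h
    have h1 := h.1
    obtain ⟨h2, h3⟩ := ih h.2.1
    refine ⟨List.pairwise_cons.mpr ⟨fun m hm => ?_, h2⟩, fun a ha => ?_⟩
    · cases l with
      | nil => simp at hm
      | cons c l' =>
        have hc : c < n := h.2.2 c (by simp)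
        rcases List.mem_cons.mp hm with rfl | hm
        · exact hc
        · exact lt_trans ((List.pairwise_cons.mp h2).1 m hm) hc
    · rcases List.mem_cons.mp ha with rfl | ha
      · exact h1
      · exact h3 a ha

theorem St_add_le (l : List ℕ) (r : ℕ) (h : St (add l r)) : r ≤ l.length := by
  induction l generalizing r with
  | nil =>
    cases r with
    | zero => simp
    | succ r =>
      simp only [add, St] at h
      omega
  | cons n l ih =>
    cases r with
    | zero => simp
    | succ r =>
      simp only [add, St] at h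
      have := ih r h.2.1
      simp only [List.length_cons]
      omega

theorem length_add_le (l : List ℕ) (r : ℕ) : (add l r).length ≤ l.length + 1 := by
  induction l generalizing r with
  | nil => cases r <;> simp [add]
  | cons n l ih =>
    cases r with
    | zero => simp [add]
    | succ r =>
      simp only [add, List.length_cons]
      have := ih r
      omega

theorem Adm_range (l ρ : List ℕ) (h : Adm l ρ) : ∀ r ∈ ρ, r < l.length + ρ.length := by
  induction ρ generalizing l with
  | nil => simp
  | cons s ρ ih =>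
    rw [Adm] at h
    intro r hr
    have h1 := St_add_le l s h.1
    have h2 := length_add_le l s
    simp only [List.length_cons]
    rcases List.mem_cons.mp hr with rfl | hr
    · omega
    · have := ih (add l s) h.2 r hr
      omega

theorem mem_HP (l : List ℕ) (k : ℕ) (ρ : List ℕ) :
    ρ ∈ HP l k ↔ ρ.length = k ∧ Hk Rp ρ ∧ Adm l ρ := by
  classical
  rw [HP, mem_filter, mem_listsOver]
  constructor
  · rintro ⟨⟨h1, -⟩, h2, h3⟩
    exact ⟨h1, h2, h3⟩
  · rintro ⟨h1, h2, h3⟩
    refine ⟨⟨h1, fun r hr => ?_⟩, h2, h3⟩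
    rw [mem_range, ← h1]
    exact Adm_range l ρ h3 r hr

theorem addL_append (l ρ σ : List ℕ) : addL l (ρ ++ σ) = addL (addL l ρ) σ := by
  induction ρ generalizing l with
  | nil => rfl
  | cons r ρ ih => simp only [List.cons_append, addL, ih]

theorem Adm_append (l ρ σ : List ℕ) : Adm l (ρ ++ σ) ↔ Adm l ρ ∧ Adm (addL l ρ) σ := by
  induction ρ generalizing l with
  | nil => simp [Adm, addL]
  | cons r ρ ih => simp only [List.cons_append, Adm, addL, ih, and_assoc]

theorem addL_zeros (a : ℕ) (l : List ℕ) (n : ℕ) :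
    addL (a :: l) (List.replicate n 0) = (a + n) :: l := by
  induction n generalizing a with
  | zero => rfl
  | succ n ih =>
    rw [List.replicate_succ, addL, add, ih]
    congr 1
    omega

theorem addL_succ (a : ℕ) (l ρ : List ℕ) :
    addL (a :: l) (ρ.map Nat.succ) = a :: addL l ρ := by
  induction ρ generalizing l with
  | nil => rfl
  | cons r ρ ih =>
    rw [List.map_cons, addL, addL, Nat.succ_eq_add_one, add, ih]

theorem St_mono (a b : ℕ) (l : List ℕ) (h : St (a :: l)) (hab : a ≤ b) : St (b :: l) := by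
  rw [St] at h ⊢
  exact ⟨by omega, h.2.1, fun m hm => lt_of_lt_of_le (h.2.2 m hm) hab⟩

theorem Adm_zeros (a : ℕ) (l : List ℕ) (n : ℕ) (h : St (a :: l)) :
    Adm (a :: l) (List.replicate n 0) := by
  induction n generalizing a with
  | zero => simp [Adm]
  | succ n ih =>
    rw [List.replicate_succ, Adm, add]
    exact ⟨St_mono a (a + 1) l h (by omega), ih (a + 1) (St_mono a (a + 1) l h (by omega))⟩

theorem hd_add (l : List ℕ) (r : ℕ) : hd l ≤ hd (add l r) := by
  cases l with
  | nil => simp [hd]
  | cons a l => cases r <;> simp [hd, add]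

theorem hd_addL (l ρ : List ℕ) : hd l ≤ hd (addL l ρ) := by
  induction ρ generalizing l with
  | nil => exact le_rfl
  | cons r ρ ih => exact le_trans (hd_add l r) (ih (add l r))

theorem hd_add' (l : List ℕ) (r : ℕ) : hd (add l r) ≤ hd l + 1 := by
  cases l with
  | nil => cases r <;> simp [hd, add]
  | cons a l => cases r <;> simp [hd, add]

theorem hd_addL' (l ρ : List ℕ) : hd (addL l ρ) ≤ hd l + ρ.length := by
  induction ρ generalizing l with
  | nil => simp [addL]
  | cons r ρ ih =>
    have h1 := ih (add l r)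
    have h2 := hd_add' l r
    simp only [addL, List.length_cons]
    omega

theorem St_cons_iff (a : ℕ) (l : List ℕ) : St (a :: l) ↔ 0 < a ∧ St l ∧ hd l < a := by
  rw [St]
  cases l with
  | nil =>
    simp [hd, St]
  | cons c l => simp [hd]

theorem Adm_succ (a : ℕ) (l ρ : List ℕ) (h : St (a :: l)) :
    Adm (a :: l) (ρ.map Nat.succ) ↔ Adm l ρ ∧ hd (addL l ρ) < a := by
  induction ρ generalizing l with
  | nil =>
    simp only [List.map_nil, Adm, addL, true_and, true_iff]
    exact ((St_cons_iff a l).mp h).2.2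
  | cons r ρ ih =>
    rw [List.map_cons, Adm, Adm, addL, Nat.succ_eq_add_one, add]
    constructor
    · rintro ⟨h1, h2⟩
      have h3 := (ih (add l r) h1).mp h2
      exact ⟨⟨((St_cons_iff _ _).mp h1).2.1, h3.1⟩, h3.2⟩
    · rintro ⟨⟨h1, h2⟩, h3⟩
      have h4 : St (a :: add l r) := by
        rw [St_cons_iff]
        exact ⟨((St_cons_iff a l).mp h).1, h1, lt_of_le_of_lt (hd_addL (add l r) ρ) h3⟩
      exact ⟨h4, (ih (add l r) h4).mpr ⟨h2, h3⟩⟩

/-- strictly increasing lists: at most one zero, at the beginning. -/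
theorem DL_dec (D : List ℕ) (h : DL Rp D) : ∃ (ε : ℕ) (D' : List ℕ), ε ≤ 1 ∧
    D = List.replicate ε 0 ++ D'.map Nat.succ ∧ DL Rp D' := by
  have hmap : ∀ L : List ℕ, (∀ r ∈ L, 0 < r) → (L.map Nat.pred).map Nat.succ = L := by
    intro L hL
    rw [List.map_map]
    conv_rhs => rw [← List.map_id L]
    refine List.map_congr_left fun r hr => ?_
    have := hL r hr
    simp only [Function.comp_apply, id_eq]
    exact Nat.succ_pred_eq_of_pos this
  have hpred : ∀ L : List ℕ, (∀ r ∈ L, 0 < r) → DL Rp L → DL Rp (L.map Nat.pred) := by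
    intro L hL h
    rw [DL, List.pairwise_map]
    refine List.Pairwise.imp_of_mem ?_ h
    intro a b ha hb hab
    have h1 := hL a ha
    have h2 := hL b hb
    simp only [Rp, Nat.pred_eq_sub_one] at hab ⊢
    omega
  cases D with
  | nil => exact ⟨0, [], by omega, rfl, List.Pairwise.nil⟩
  | cons d D =>
    have hp := List.pairwise_cons.mp h
    have hD : ∀ r ∈ D, 0 < r := fun r hr => by
      have := hp.1 r hr
      simp only [Rp] at this
      omega
    rcases Nat.eq_zero_or_pos d with rfl | hd0
    · exact ⟨1, D.map Nat.pred, le_rfl, by rw [hmap D hD]; rfl, hpred D hD hp.2⟩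
    · have hall : ∀ r ∈ d :: D, 0 < r := fun r hr => by
        rcases List.mem_cons.mp hr with rfl | hr
        · exact hd0
        · exact hD r hr
      exact ⟨0, (d :: D).map Nat.pred, by omega, by rw [hmap _ hall]; rfl, hpred _ hall h⟩

/-- weakly decreasing lists: the zeros stand at the end. -/
theorem AL_dec (A : List ℕ) (h : AL Rp A) : ∃ (j : ℕ) (A' : List ℕ),
    A = A'.map Nat.succ ++ List.replicate j 0 ∧ AL Rp A' := by
  induction A with
  | nil => exact ⟨0, [], rfl, List.Pairwise.nil⟩
  | cons a A ih =>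
    have hp := List.pairwise_cons.mp h
    obtain ⟨j, A', hA, hA'⟩ := ih hp.2
    rcases Nat.eq_zero_or_pos a with rfl | ha
    · refine ⟨j + 1, [], ?_, List.Pairwise.nil⟩
      have : A' = [] := by
        cases A' with
        | nil => rfl
        | cons c A' =>
          have := hp.1 (Nat.succ c) (by rw [hA]; simp)
          simp only [Rp] at this
          omega
      rw [hA, this, List.replicate_succ]
      rfl
    · refine ⟨j, (a - 1) :: A', ?_, ?_⟩
      · rw [hA, List.map_cons, List.cons_append]
        congr 1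
        simp only [Nat.succ_eq_add_one]
        omega
      · refine List.pairwise_cons.mpr ⟨fun c hc => ?_, hA'⟩
        have := hp.1 (Nat.succ c) (by
          rw [hA]
          exact List.mem_append_left _ (List.mem_map.mpr ⟨c, hc, rfl⟩))
        simp only [Rp, Nat.succ_eq_add_one] at this ⊢
        omega

/-- a path of the rows `≥ 1`, surrounded by zeros. -/
def zz (ε j : ℕ) (ρ : List ℕ) : List ℕ :=
  List.replicate ε 0 ++ (ρ.map Nat.succ ++ List.replicate j 0)

theorem length_zz (ε j : ℕ) (ρ : List ℕ) : (zz ε j ρ).length = ε + j + ρ.length := by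
  simp [zz]
  omega

theorem Hk_zz (ε j : ℕ) (ρ : List ℕ) (hε : ε ≤ 1) (h : Hk Rp ρ) : Hk Rp (zz ε j ρ) := by
  obtain ⟨D, A, rfl, hD, hA⟩ := h
  refine ⟨List.replicate ε 0 ++ D.map Nat.succ, A.map Nat.succ ++ List.replicate j 0, ?_, ?_, ?_⟩
  · simp [zz, List.append_assoc]
  · rw [DL, List.pairwise_append]
    refine ⟨?_, ?_, ?_⟩
    · rcases Nat.le_one_iff_eq_zero_or_eq_one.mp hε with rfl | rfl
      · simp
      · simp
    · rw [List.pairwise_map]
      refine hD.imp fun {a b} hab => ?_
      simp only [Rp, Nat.succ_eq_add_one] at hab ⊢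
      omega
    · intro a ha b hb
      have h1 := List.eq_of_mem_replicate ha
      obtain ⟨c, _, rfl⟩ := List.mem_map.mp hb
      simp only [Rp, Nat.succ_eq_add_one]
      omega
  · rw [AL, List.pairwise_append]
    refine ⟨?_, ?_, ?_⟩
    · rw [List.pairwise_map]
      refine hA.imp fun {a b} hab => ?_
      simp only [Rp, Nat.succ_eq_add_one] at hab ⊢
      omega
    · rw [List.pairwise_replicate]
      right
      simp [Rp]
    · intro a ha b hb
      have h1 := List.eq_of_mem_replicate hb
      simp only [Rp]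
      omega

theorem Hk_dec (ρ : List ℕ) (h : Hk Rp ρ) : ∃ (ε j : ℕ) (σ : List ℕ), ε ≤ 1 ∧
    ρ = zz ε j σ ∧ Hk Rp σ := by
  obtain ⟨D, A, rfl, hD, hA⟩ := h
  obtain ⟨ε, D', hε, hD1, hD2⟩ := DL_dec D hD
  obtain ⟨j, A', hA1, hA2⟩ := AL_dec A hA
  refine ⟨ε, j, D' ++ A', hε, ?_, D', A', rfl, hD2, hA2⟩
  rw [hD1, hA1, zz, List.map_append]
  simp [List.append_assoc]

theorem zz_nil (ε j : ℕ) : zz ε j [] = List.replicate (ε + j) 0 := by
  rw [zz, List.map_nil, List.nil_append, List.replicate_append_replicate]

theorem addL_zz (a ε j : ℕ) (l ρ : List ℕ) :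
    addL (a :: l) (zz ε j ρ) = (a + (ε + j)) :: addL l ρ := by
  rw [zz, addL_append, addL_append, addL_zeros, addL_succ, addL_zeros]
  congr 1
  omega

theorem St_addL (l ρ : List ℕ) (h : St l) (hA : Adm l ρ) : St (addL l ρ) := by
  induction ρ generalizing l with
  | nil => exact h
  | cons r ρ ih => exact ih (add l r) hA.1 hA.2

theorem Adm_zz (a ε j : ℕ) (l ρ : List ℕ) (h : St (a :: l)) :
    Adm (a :: l) (zz ε j ρ) ↔ Adm l ρ ∧ hd (addL l ρ) < a + ε := by
  rw [zz, Adm_append, Adm_append, addL_zeros, addL_succ,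
    Adm_succ (a + ε) l ρ (St_mono a (a + ε) l h (by omega))]
  constructor
  · rintro ⟨-, h1, -⟩
    exact h1
  · intro h1
    refine ⟨Adm_zeros a l ε h, h1, Adm_zeros _ _ _ ?_⟩
    rw [St_cons_iff]
    exact ⟨by have := ((St_cons_iff a l).mp h).1; omega,
      St_addL l ρ ((St_cons_iff a l).mp h).2.1 h1.1, h1.2⟩

/-- coefficient: number of ways to distribute `i` boxes of the first row around a path of the
other rows whose end has first part `h`. -/
def nn (i a h : ℕ) : ℝ := (if h < a then 1 else 0) + (if 1 ≤ i ∧ h < a + 1 then 1 else 0)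

theorem zz_inj {ε j ε' j' : ℕ} {σ σ' : List ℕ} (hε : ε ≤ 1) (hε' : ε' ≤ 1) (hσ : σ ≠ [])
    (h : zz ε j σ = zz ε' j' σ') : ε = ε' ∧ j = j' ∧ σ = σ' := by
  have hf : ∀ (e i : ℕ) (τ : List ℕ), (zz e i τ).filter (fun n => decide (n ≠ 0))
      = τ.map Nat.succ := by
    intro e i τ
    rw [zz, List.filter_append, List.filter_append]
    have h1 : ∀ n : ℕ, (List.replicate n 0).filter (fun n => decide (n ≠ 0)) = [] := by
      intro n
      rw [List.filter_eq_nil_iff]
      intro a ha
      have := List.eq_of_mem_replicate ha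
      simp [this]
    rw [h1, h1, List.nil_append, List.append_nil, List.filter_eq_self]
    intro a ha
    obtain ⟨c, _, rfl⟩ := List.mem_map.mp ha
    simp
  have h2 : σ = σ' := by
    have h3 := congrArg (fun L : List ℕ => L.filter (fun n => decide (n ≠ 0))) h
    simp only [hf] at h3
    exact List.map_injective_iff.mpr Nat.succ_injective h3
  subst h2
  have h4 : ε = ε' := by
    cases σ with
    | nil => exact absurd rfl hσ
    | cons s σ =>
      rcases Nat.le_one_iff_eq_zero_or_eq_one.mp hε with rfl | rfl <;>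
        rcases Nat.le_one_iff_eq_zero_or_eq_one.mp hε' with rfl | rfl
      · rfl
      · exfalso
        simp [zz] at h
      · exfalso
        simp [zz] at h
      · rfl
  have h5 := congrArg List.length h
  rw [length_zz, length_zz] at h5
  exact ⟨h4, by omega, rfl⟩

/-- **Decomposition by the first row.** -/
theorem sum_HP_cons (a : ℕ) (l : List ℕ) (h : St (a :: l)) (m : ℕ) (Φ : List ℕ → ℝ) :
    ∑ ρ ∈ HP (a :: l) m, Φ (addL (a :: l) ρ)
      = Φ ((a + m) :: l) + ∑ i ∈ range m, ∑ ρ ∈ HP l (m - i),
          nn i a (hd (addL l ρ)) * Φ ((a + i) :: addL l ρ) := by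
  classical
  have hs := (St_cons_iff a l).mp h
  set I : Finset (Σ _ : ℕ × ℕ, List ℕ) := ((range m) ×ˢ (range 2)).sigma fun p =>
    (HP l (m - p.1)).filter fun ρ => p.2 ≤ p.1 ∧ hd (addL l ρ) < a + p.2 with hI
  set e : (Σ _ : ℕ × ℕ, List ℕ) → List ℕ := fun t => zz t.1.2 (t.1.1 - t.1.2) t.2 with he
  have hmemI : ∀ t ∈ I, t.1.1 < m ∧ t.1.2 ≤ 1 ∧ t.2.length = m - t.1.1 ∧ Hk Rp t.2 ∧
      Adm l t.2 ∧ t.1.2 ≤ t.1.1 ∧ hd (addL l t.2) < a + t.1.2 := by
    intro t ht
    rw [hI, mem_sigma, mem_product, mem_range, mem_range, mem_filter, mem_HP] at ht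
    obtain ⟨⟨h1, h2⟩, ⟨h3, h4, h5⟩, h6, h7⟩ := ht
    exact ⟨h1, by omega, h3, h4, h5, h6, h7⟩
  have hne : ∀ t ∈ I, t.2 ≠ [] := by
    intro t ht h0
    obtain ⟨h1, -, h2, -⟩ := hmemI t ht
    rw [h0, List.length_nil] at h2
    omega
  have hinj : Set.InjOn e I := by
    intro t ht t' ht' heq
    have h1 := hmemI t ht
    have h1' := hmemI t' ht'
    obtain ⟨h2, h3, h4⟩ := zz_inj h1.2.1 h1'.2.1 (hne t ht) heq
    obtain ⟨⟨i, ε⟩, σ⟩ := t
    obtain ⟨⟨i', ε'⟩, σ'⟩ := t'
    simp only at h1 h1' h2 h3 h4
    subst h2 h4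
    have : i = i' := by omega
    rw [this]
  have hset : HP (a :: l) m = insert (List.replicate m 0) (I.image e) := by
    ext ρ
    rw [mem_HP, mem_insert, mem_image]
    constructor
    · rintro ⟨h1, h2, h3⟩
      obtain ⟨ε, j, σ, hε, rfl, hσ⟩ := Hk_dec ρ h2
      rw [length_zz] at h1
      by_cases h0 : σ = []
      · left
        rw [h0, zz_nil]
        rw [h0, List.length_nil] at h1
        rw [← h1, add_zero]
      · right
        have hlen : 0 < σ.length := List.length_pos_iff.mpr h0
        rw [Adm_zz a ε j l σ h] at h3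
        refine ⟨⟨(ε + j, ε), σ⟩, ?_, ?_⟩
        · rw [hI, mem_sigma, mem_product, mem_range, mem_range, mem_filter, mem_HP]
          simp only
          exact ⟨⟨by omega, by omega⟩, ⟨by omega, hσ, h3.1⟩, by omega, h3.2⟩
        · rw [he]
          simp only [Nat.add_sub_cancel_left]
    · rintro (rfl | ⟨t, ht, rfl⟩)
      · refine ⟨by simp, ⟨[], List.replicate m 0, rfl, List.Pairwise.nil, ?_⟩, Adm_zeros a l m h⟩
        rw [AL, List.pairwise_replicate]
        right
        simp [Rp]
      · have h1 := hmemI t ht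
        rw [he]
        simp only
        rw [length_zz, Adm_zz a _ _ l _ h]
        exact ⟨by omega, Hk_zz _ _ _ h1.2.1 h1.2.2.2.1, h1.2.2.2.2.1, h1.2.2.2.2.2.2⟩
  have hnot : List.replicate m 0 ∉ I.image e := by
    rw [mem_image]
    rintro ⟨t, ht, h1⟩
    have h2 := hne t ht
    obtain ⟨⟨i, ε⟩, σ⟩ := t
    cases σ with
    | nil => exact h2 rfl
    | cons s σ =>
      have h3 : s + 1 ∈ List.replicate m 0 := by
        rw [← h1, he]
        simp [zz]
      have := List.eq_of_mem_replicate h3
      omega
  rw [hset, sum_insert hnot, sum_image hinj, addL_zeros]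
  congr 1
  rw [hI, sum_sigma, sum_product]
  refine sum_congr rfl fun i hi => ?_
  rw [sum_range_succ, sum_range_one, sum_filter, sum_filter, ← sum_add_distrib]
  refine sum_congr rfl fun ρ _ => ?_
  simp only [he, nn]
  rw [addL_zz, addL_zz]
  by_cases h1 : hd (addL l ρ) < a
  · have h2 : hd (addL l ρ) < a + 1 := by omega
    by_cases hi1 : 1 ≤ i
    · have e1 : a + (0 + (i - 0)) = a + i := by omega
      have e2 : a + (1 + (i - 1)) = a + i := by omega
      simp only [e1, e2, h1, h2, hi1, Nat.zero_le, add_zero, and_self, if_true]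
      ring
    · have e1 : a + (0 + (i - 0)) = a + i := by omega
      simp only [e1, h1, hi1, Nat.zero_le, add_zero, and_self, if_true, false_and, if_false]
      ring
  · by_cases hi1 : 1 ≤ i
    · have e2 : a + (1 + (i - 1)) = a + i := by omega
      by_cases h2 : hd (addL l ρ) < a + 1
      · simp only [e2, h1, h2, hi1, add_zero, and_self, if_true, and_false, if_false]
        ring
      · simp only [h1, h2, add_zero, and_false, if_false]
        ring
    · simp only [h1, hi1, add_zero, false_and, and_false, if_false]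
      ring

/-- paths from the empty partition. -/
theorem HP_nil (m : ℕ) (hm : 1 ≤ m) : HP [] m = {List.replicate m 0} := by
  ext ρ
  rw [mem_HP, mem_singleton]
  constructor
  · rintro ⟨h1, h2, h3⟩
    obtain ⟨ε, j, σ, hε, rfl, hσ⟩ := Hk_dec ρ h2
    rw [length_zz] at h1
    cases σ with
    | nil =>
      rw [zz_nil]
      rw [List.length_nil] at h1
      rw [← h1, add_zero]
    | cons s σ =>
      exfalso
      rcases Nat.le_one_iff_eq_zero_or_eq_one.mp hε with rfl | rfl
      · simp only [zz, List.replicate_zero, List.nil_append, List.map_cons, List.cons_append,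
          Adm, Nat.succ_eq_add_one, add, St] at h3
        omega
      · simp only [zz, List.replicate_one, List.map_cons, List.cons_append, List.nil_append,
          Adm, Nat.succ_eq_add_one, add] at h3
        have h4 := h3.2.1
        cases s with
        | zero =>
          rw [St_cons_iff] at h4
          simp [add, hd] at h4
        | succ s =>
          rw [St_cons_iff] at h4
          simp [add, St] at h4
  · rintro rfl
    refine ⟨by simp, ⟨[], List.replicate m 0, rfl, List.Pairwise.nil, ?_⟩, ?_⟩
    · rw [AL, List.pairwise_replicate]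
      right
      simp [Rp]
    · obtain ⟨n, rfl⟩ : ∃ n, m = n + 1 := ⟨m - 1, by omega⟩
      rw [List.replicate_succ, Adm, add]
      have h1 : St [1] := by simp [St]
      exact ⟨h1, Adm_zeros 1 [] n h1⟩

theorem addL_nil_zeros (m : ℕ) (hm : 1 ≤ m) : addL [] (List.replicate m 0) = [m] := by
  obtain ⟨n, rfl⟩ : ∃ n, m = n + 1 := ⟨m - 1, by omega⟩
  rw [List.replicate_succ, addL, add, addL_zeros]
  congr 1
  omega

end Pool.H51.PR
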