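import Mathlib
import Pool.Agent.H51.PR.Paths

/-!
MP_1e629d_co: the symmetrised Schur `P` polynomials satisfy the Pieri rule `Pie` (sum over the hook
type paths of strict partitions) of `H71/RW/Defs.lean`.
-/

set_option autoImplicit false

open Finset

namespace Pool.H51.PR

open Pool.H53.RQ Pool.Agent.H71.RW

/-- `2, 1, 0` for `v < b`, `v = b`, `v > b`. -/
def cb (b v : ℕ) : ℝ := if v < b then 2 else if v = b then 1 else 0

/-- vanishing on the lists with two equal neighbours. -/
def VN (G : List ℕ → ℝ) : Prop := ∀ (p q : List ℕ) (c : ℕ), G (p ++ c :: c :: q) = 0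

theorem VN_cons (G : List ℕ → ℝ) (h : VN G) (v : ℕ) : VN fun ν => G (v :: ν) := by
  intro p q c
  exact h (v :: p) q c

theorem P_VN (x : ℕ → ℝ) (J : Finset ℕ) (hx : Set.InjOn x J) : VN fun ν => P x ν J := by
  intro p q c
  induction p generalizing J with
  | nil =>
    have := P_swap x c c q J hx
    simp only [List.nil_append]
    linarith
  | cons v p ih =>
    simp only [List.cons_append]
    rw [P_cons]
    refine sum_eq_zero fun j _ => ?_
    have := ih (J.erase j) (hx.mono fun t ht => mem_of_mem_erase ht)
    simp only at this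
    rw [this, mul_zero]

theorem pie_zero (l : List ℕ) (G : List ℕ → ℝ) (b : ℕ) : pie l G b 0 = G l := by
  induction l generalizing G b with
  | nil => simp [pie]
  | cons a l ih =>
    simp only [pie, zero_add, sum_range_one, om, if_true, one_mul, add_zero, Nat.sub_zero]
    rw [ih (fun ν => G (a :: ν))]

theorem pie_eq_HP (l : List ℕ) (hl : St l) (G : List ℕ → ℝ) (hG : VN G) (m : ℕ) (hm : 1 ≤ m)
    (b : ℕ) (hb : hd l < b) :
    pie l G b m = ∑ ρ ∈ HP l m, cb b (hd (addL l ρ)) * G (addL l ρ) := by
  induction l generalizing G m b with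
  | nil =>
    rw [HP_nil m hm, sum_singleton, addL_nil_zeros m hm]
    simp only [pie, om, cb, hd, zero_add, List.headD_cons]
    rw [if_neg (by omega), if_neg (by omega)]
    rfl
  | cons a l ih =>
    have hs := (St_cons_iff a l).mp hl
    have hab : a < b := by simpa [hd] using hb
    have hdec := sum_HP_cons a l hl m (fun ν => cb b (hd ν) * G ν)
    rw [hdec]
    simp only [pie]
    rw [sum_range_succ, add_comm, Nat.sub_self, pie_zero]
    have h1 : om b a m = cb b (hd ((a + m) :: l)) := by
      simp only [om, cb, hd, List.headD_cons]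
      rw [if_neg (by omega)]
      rfl
    rw [h1]
    congr 1
    refine sum_congr rfl fun i hi => ?_
    rw [mem_range] at hi
    rw [ih hs.2.1 (fun ν => G ((a + i) :: ν)) (VN_cons G hG (a + i)) (m - i) (by omega) a hs.2.2,
      mul_sum]
    refine sum_congr rfl fun ρ _ => ?_
    have hhd : hd ((a + i) :: addL l ρ) = a + i := rfl
    rw [hhd]
    rcases Nat.eq_zero_or_pos i with rfl | hi0
    · by_cases h2 : hd (addL l ρ) = a
      · have h3 : G ((a + 0) :: addL l ρ) = 0 := by
          have h4 : addL l ρ = a :: (addL l ρ).tail := by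
            cases h5 : addL l ρ with
            | nil =>
              rw [h5] at h2
              simp only [hd, List.headD_nil] at h2
              omega
            | cons c q =>
              rw [h5] at h2
              simp only [hd, List.headD_cons] at h2
              rw [h2]
              rfl
          rw [h4, add_zero]
          exact hG [] (addL l ρ).tail a
        simp only [h3, mul_zero]
      · simp only [om, cb, nn, add_zero, if_true]
        rw [if_neg h2]
        split_ifs <;> first | omega | ring
    · simp only [om, cb, nn]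
      split_ifs <;> first | omega | ring

/-- the Pieri rule in the form with paths. -/
theorem pie_P (x : ℕ → ℝ) (J : Finset ℕ) (hx : Set.InjOn x J) (h0 : ∀ j ∈ J, x j ≠ 0) :
    Pie (fun l => P x l J) := by
  refine ⟨P_nil x J, fun l hl k hk => ?_⟩
  have hp := St_pairwise l hl
  have h1 := pieri x l hp.1 hp.2 J hx h0 k (hd l + k + 1) (by simp [hd])
  rw [pie_eq_HP l hl (fun ν => P x ν J) (P_VN x J hx) k hk (hd l + k + 1) (by omega)] at h1
  have h2 : ∀ ρ ∈ HP l k, cb (hd l + k + 1) (hd (addL l ρ)) * P x (addL l ρ) J
      = 2 * P x (addL l ρ) J := by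
    intro ρ hρ
    rw [mem_HP] at hρ
    have h3 := hd_addL' l ρ
    rw [hρ.1] at h3
    rw [cb, if_pos (by omega)]
  rw [sum_congr rfl h2, ← mul_sum, Q, if_neg (by omega)] at h1
  simp only
  linarith

end Pool.H51.PR
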