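import Mathlib
import Pool.Agent.H51.PR.PieP

/-!
MP_1e629d_co: generating function of the hook words in commuting letters of any types.

For a linearly ordered alphabet and `R a b := a < b ∨ (a = b ∧ tp a)` the sum over the hook words
of length `k ≥ 1` of the products of the values `f a` is `P x [k] J`, where `J` lists the nonzero
values.
-/

set_option autoImplicit false

open Finset

namespace Pool.H51.PR

open Pool.H53.RQ Pool.Agent.H71.RW

variable {α : Type*} [LinearOrder α]

/-- the relation of an alphabet with types. -/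
def RR (tp : α → Prop) : α → α → Prop := fun a b => a < b ∨ (a = b ∧ tp a)

open Classical in
/-- hook words of length `k` with letters in `A`. -/
noncomputable def HA (tp : α → Prop) (A : Finset α) (k : ℕ) : Finset (List α) :=
  (listsOver A k).filter fun w => Hk (RR tp) w

theorem mem_HA (tp : α → Prop) (A : Finset α) (k : ℕ) (w : List α) :
    w ∈ HA tp A k ↔ w.length = k ∧ (∀ a ∈ w, a ∈ A) ∧ Hk (RR tp) w := by
  classical
  rw [HA, mem_filter, mem_listsOver, and_assoc]

theorem DL_max (tp : α → Prop) (A : Finset α) (m : α) (hm : ∀ a ∈ A, a < m) (D : List α)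
    (hD : ∀ a ∈ D, a ∈ insert m A) (h : DL (RR tp) D) : ∃ (n : ℕ) (D' : List α),
    D = List.replicate n m ++ D' ∧ (∀ a ∈ D', a ∈ A) ∧ DL (RR tp) D' ∧ (tp m → n ≤ 1) := by
  induction D with
  | nil => exact ⟨0, [], rfl, by simp, List.Pairwise.nil, fun _ => by omega⟩
  | cons d D ih =>
    have hp := List.pairwise_cons.mp h
    obtain ⟨n, D', h1, h2, h3, h4⟩ := ih (fun a ha => hD a (List.mem_cons_of_mem _ ha)) hp.2
    by_cases hd : d = m
    · refine ⟨n + 1, D', by rw [h1, hd, List.replicate_succ]; rfl, h2, h3, fun ht => ?_⟩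
      cases n with
      | zero => omega
      | succ n =>
        exfalso
        refine hp.1 m (by rw [h1, List.replicate_succ]; simp) ?_
        rw [hd]
        exact Or.inr ⟨rfl, ht⟩
    · have hdA : d ∈ A := (mem_insert.mp (hD d (by simp))).resolve_left hd
      have hn : n = 0 := by
        cases n with
        | zero => rfl
        | succ n =>
          exfalso
          refine hp.1 m (by rw [h1, List.replicate_succ]; simp) ?_
          exact Or.inl (hm d hdA)
      rw [hn, List.replicate_zero, List.nil_append] at h1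
      refine ⟨0, d :: D', by rw [h1]; rfl, fun a ha => ?_, ?_, fun _ => by omega⟩
      · rcases List.mem_cons.mp ha with rfl | ha
        · exact hdA
        · exact h2 a ha
      · rw [← h1]
        exact h

theorem AL_max (tp : α → Prop) (A : Finset α) (m : α) (hm : ∀ a ∈ A, a < m) (L : List α)
    (hL : ∀ a ∈ L, a ∈ insert m A) (h : AL (RR tp) L) : ∃ (n : ℕ) (L' : List α),
    L = L' ++ List.replicate n m ∧ (∀ a ∈ L', a ∈ A) ∧ AL (RR tp) L' ∧ (¬ tp m → n ≤ 1) := by
  induction L with
  | nil => exact ⟨0, [], rfl, by simp, List.Pairwise.nil, fun _ => by omega⟩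
  | cons d L ih =>
    have hp := List.pairwise_cons.mp h
    obtain ⟨n, L', h1, h2, h3, h4⟩ := ih (fun a ha => hL a (List.mem_cons_of_mem _ ha)) hp.2
    by_cases hd : d = m
    · have hall : ∀ e ∈ L, e = m ∧ tp m := by
        intro e he
        have h5 := hp.1 e he
        rw [hd] at h5
        rcases h5 with h5 | ⟨h5, h6⟩
        · exfalso
          rcases mem_insert.mp (hL e (List.mem_cons_of_mem _ he)) with rfl | h6
          · exact lt_irrefl _ h5
          · exact lt_asymm h5 (hm e h6)
        · exact ⟨h5.symm, h6⟩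
      have hL' : L' = [] := by
        cases L' with
        | nil => rfl
        | cons c L' =>
          exfalso
          have h5 := (hall c (by rw [h1]; simp)).1
          have h6 := hm c (h2 c (by simp))
          rw [h5] at h6
          exact lt_irrefl _ h6
      refine ⟨n + 1, [], ?_, by simp, List.Pairwise.nil, fun ht => ?_⟩
      · rw [h1, hL', hd, List.replicate_succ]
        rfl
      · cases n with
        | zero => omega
        | succ n =>
          exact absurd (hall m (by rw [h1, List.replicate_succ]; simp)).2 ht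
    · have hdA : d ∈ A := (mem_insert.mp (hL d (by simp))).resolve_left hd
      refine ⟨n, d :: L', by rw [h1]; rfl, fun a ha => ?_, ?_, h4⟩
      · rcases List.mem_cons.mp ha with rfl | ha
        · exact hdA
        · exact h2 a ha
      · refine List.pairwise_cons.mpr ⟨fun e he => hp.1 e ?_, h3⟩
        rw [h1]
        exact List.mem_append_left _ he

open Classical in
/-- the largest letter around a word. -/
noncomputable def zm (tp : α → Prop) (m : α) (ε j : ℕ) (w : List α) : List α :=
  if tp m then List.replicate ε m ++ (w ++ List.replicate j m)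
  else List.replicate j m ++ (w ++ List.replicate ε m)

omit [LinearOrder α] in
theorem length_zm (tp : α → Prop) (m : α) (ε j : ℕ) (w : List α) :
    (zm tp m ε j w).length = ε + j + w.length := by
  rw [zm]
  split_ifs
  · simp
    omega
  · simp
    omega

omit [LinearOrder α] in
theorem zm_nil (tp : α → Prop) (m : α) (ε j : ℕ) :
    zm tp m ε j [] = List.replicate (ε + j) m := by
  rw [zm]
  split_ifs
  · rw [List.nil_append, List.replicate_append_replicate]
  · rw [List.nil_append, List.replicate_append_replicate, add_comm]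

omit [LinearOrder α] in
theorem prod_zm (tp : α → Prop) (m : α) (f : α → ℝ) (ε j : ℕ) (w : List α) :
    ((zm tp m ε j w).map f).prod = f m ^ (ε + j) * (w.map f).prod := by
  rw [zm]
  split_ifs
  · simp only [List.map_append, List.prod_append, List.map_replicate, List.prod_replicate]
    ring
  · simp only [List.map_append, List.prod_append, List.map_replicate, List.prod_replicate]
    ring

theorem Hk_zm (tp : α → Prop) (A : Finset α) (m : α) (hm : ∀ a ∈ A, a < m) (ε j : ℕ)
    (hε : ε ≤ 1) (w : List α) (hw : ∀ a ∈ w, a ∈ A) (h : Hk (RR tp) w) :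
    Hk (RR tp) (zm tp m ε j w) := by
  obtain ⟨D, L, rfl, hD, hL⟩ := h
  have key : ∀ p q : ℕ, (tp m → p ≤ 1) → (¬ tp m → q ≤ 1) →
      Hk (RR tp) (List.replicate p m ++ ((D ++ L) ++ List.replicate q m)) := by
    intro p q hp hq
    refine ⟨List.replicate p m ++ D, L ++ List.replicate q m, by simp [List.append_assoc], ?_, ?_⟩
    · rw [DL, List.pairwise_append]
      refine ⟨?_, hD, ?_⟩
      · rw [List.pairwise_replicate]
        by_cases ht : tp m
        · exact Or.inl (hp ht)
        · refine Or.inr fun h => ?_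
          rcases h with h | h
          · exact lt_irrefl _ h
          · exact ht h.2
      · intro a ha b hb hab
        have h1 := List.eq_of_mem_replicate ha
        have h2 := hm b (hw b (List.mem_append_left _ hb))
        rw [h1] at hab
        rcases hab with hab | hab
        · exact lt_asymm hab h2
        · rw [← hab.1] at h2
          exact lt_irrefl _ h2
    · rw [AL, List.pairwise_append]
      refine ⟨hL, ?_, ?_⟩
      · rw [List.pairwise_replicate]
        by_cases ht : tp m
        · exact Or.inr (Or.inr ⟨rfl, ht⟩)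
        · exact Or.inl (hq ht)
      · intro a ha b hb
        have h1 := List.eq_of_mem_replicate hb
        rw [h1]
        exact Or.inl (hm a (hw a (List.mem_append_right _ ha)))
  rw [zm]
  split_ifs with ht
  · exact key ε j (fun _ => hε) (fun h => absurd ht h)
  · exact key j ε (fun h => absurd h ht) (fun _ => hε)

theorem Hk_max (tp : α → Prop) (A : Finset α) (m : α) (hm : ∀ a ∈ A, a < m) (w : List α)
    (hw : ∀ a ∈ w, a ∈ insert m A) (h : Hk (RR tp) w) : ∃ (ε j : ℕ) (w' : List α), ε ≤ 1 ∧
    w = zm tp m ε j w' ∧ (∀ a ∈ w', a ∈ A) ∧ Hk (RR tp) w' := by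
  obtain ⟨D, L, rfl, hD, hL⟩ := h
  obtain ⟨p, D', h1, h2, h3, h4⟩ := DL_max tp A m hm D
    (fun a ha => hw a (List.mem_append_left _ ha)) hD
  obtain ⟨q, L', k1, k2, k3, k4⟩ := AL_max tp A m hm L
    (fun a ha => hw a (List.mem_append_right _ ha)) hL
  have hmem : ∀ a ∈ D' ++ L', a ∈ A := fun a ha => by
    rcases List.mem_append.mp ha with ha | ha
    · exact h2 a ha
    · exact k2 a ha
  by_cases ht : tp m
  · refine ⟨p, q, D' ++ L', h4 ht, ?_, hmem, D', L', rfl, h3, k3⟩
    rw [zm, if_pos ht, h1, k1]
    simp [List.append_assoc]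
  · refine ⟨q, p, D' ++ L', k4 ht, ?_, hmem, D', L', rfl, h3, k3⟩
    rw [zm, if_neg ht, h1, k1]
    simp [List.append_assoc]

theorem zm_inj (tp : α → Prop) (A : Finset α) (m : α) (hm : ∀ a ∈ A, a < m) {ε j ε' j' : ℕ}
    {w w' : List α} (hw : ∀ a ∈ w, a ∈ A) (hw' : ∀ a ∈ w', a ∈ A) (hne : w ≠ [])
    (h : zm tp m ε j w = zm tp m ε' j' w') : ε = ε' ∧ j = j' ∧ w = w' := by
  have hmm : ∀ u : List α, (∀ a ∈ u, a ∈ A) → u.filter (fun a => decide (a ≠ m)) = u := by
    intro u hu
    rw [List.filter_eq_self]
    intro a ha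
    have := hm a (hu a ha)
    simp [this.ne]
  have hr : ∀ n : ℕ, (List.replicate n m).filter (fun a => decide (a ≠ m)) = [] := by
    intro n
    rw [List.filter_eq_nil_iff]
    intro a ha
    have := List.eq_of_mem_replicate ha
    simp [this]
  have key : ∀ p q p' q' : ℕ, List.replicate p m ++ (w ++ List.replicate q m)
      = List.replicate p' m ++ (w' ++ List.replicate q' m) → p = p' ∧ q = q' ∧ w = w' := by
    intro p q p' q' h1
    have h2 : w = w' := by
      have h3 := congrArg (fun u : List α => u.filter (fun a => decide (a ≠ m))) h1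
      simp only [List.filter_append] at h3
      rw [hr, hr, hr, hr, hmm w hw, hmm w' hw'] at h3
      simpa using h3
    subst h2
    have h4 : p = p' := by
      obtain ⟨c, u, rfl⟩ := List.exists_cons_of_ne_nil hne
      have hc : c ≠ m := (hm c (hw c (by simp))).ne
      have h5 := congrArg (fun u : List α => u.takeWhile (fun a => decide (a = m))) h1
      have ht : ∀ (n : ℕ) (v : List α),
          (List.replicate n m ++ (c :: v)).takeWhile (fun a => decide (a = m))
            = List.replicate n m := by
        intro n v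
        induction n with
        | zero => simp [hc]
        | succ n ih =>
          rw [List.replicate_succ, List.cons_append, List.takeWhile_cons_of_pos (by simp), ih]
      simp only [List.cons_append] at h5
      rw [ht, ht] at h5
      have h6 := congrArg List.length h5
      simpa using h6
    have h7 := congrArg List.length h1
    simp only [List.length_append, List.length_replicate] at h7
    exact ⟨h4, by omega, rfl⟩
  rw [zm, zm] at h
  split_ifs at h with ht
  · exact key _ _ _ _ h
  · obtain ⟨h1, h2, h3⟩ := key _ _ _ _ h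
    exact ⟨h2, h1, h3⟩

/-- removal of the largest letter. -/
theorem sum_HA_insert (tp : α → Prop) (f : α → ℝ) (A : Finset α) (m : α)
    (hm : ∀ a ∈ A, a < m) (k : ℕ) :
    ∑ u ∈ HA tp (insert m A) k, (u.map f).prod
      = f m ^ k + ∑ i ∈ range k, w i * f m ^ i * ∑ u ∈ HA tp A (k - i), (u.map f).prod := by
  classical
  set I : Finset (Σ _ : ℕ × ℕ, List α) := ((range k) ×ˢ (range 2)).sigma fun p =>
    (HA tp A (k - p.1)).filter fun _ => p.2 ≤ p.1 with hI
  set e : (Σ _ : ℕ × ℕ, List α) → List α := fun t => zm tp m t.1.2 (t.1.1 - t.1.2) t.2 with he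
  have hmemI : ∀ t ∈ I, t.1.1 < k ∧ t.1.2 ≤ 1 ∧ t.2.length = k - t.1.1 ∧ (∀ a ∈ t.2, a ∈ A) ∧
      Hk (RR tp) t.2 ∧ t.1.2 ≤ t.1.1 := by
    intro t ht
    rw [hI, mem_sigma, mem_product, mem_range, mem_range, mem_filter, mem_HA] at ht
    obtain ⟨⟨h1, h2⟩, ⟨h3, h4, h5⟩, h6⟩ := ht
    exact ⟨h1, by omega, h3, h4, h5, h6⟩
  have hne : ∀ t ∈ I, t.2 ≠ [] := by
    intro t ht h0
    obtain ⟨h1, -, h2, -⟩ := hmemI t ht
    rw [h0, List.length_nil] at h2
    omega
  have hinj : Set.InjOn e I := by
    intro t ht t' ht' heq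
    have h1 := hmemI t ht
    have h1' := hmemI t' ht'
    obtain ⟨h2, h3, h4⟩ := zm_inj tp A m hm h1.2.2.2.1 h1'.2.2.2.1 (hne t ht) heq
    obtain ⟨⟨i, ε⟩, σ⟩ := t
    obtain ⟨⟨i', ε'⟩, σ'⟩ := t'
    simp only at h1 h1' h2 h3 h4
    subst h2 h4
    have : i = i' := by omega
    rw [this]
  have hset : HA tp (insert m A) k = insert (List.replicate k m) (I.image e) := by
    ext u
    rw [mem_HA, mem_insert, mem_image]
    constructor
    · rintro ⟨h1, h2, h3⟩
      obtain ⟨ε, j, σ, hε, rfl, hσ, hσ2⟩ := Hk_max tp A m hm u h2 h3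
      rw [length_zm] at h1
      by_cases h0 : σ = []
      · left
        rw [h0, zm_nil]
        rw [h0, List.length_nil] at h1
        rw [← h1, add_zero]
      · right
        have hlen : 0 < σ.length := List.length_pos_iff.mpr h0
        refine ⟨⟨(ε + j, ε), σ⟩, ?_, ?_⟩
        · rw [hI, mem_sigma, mem_product, mem_range, mem_range, mem_filter, mem_HA]
          simp only
          exact ⟨⟨by omega, by omega⟩, ⟨by omega, hσ, hσ2⟩, by omega⟩
        · rw [he]
          simp only [Nat.add_sub_cancel_left]
    · rintro (rfl | ⟨t, ht, rfl⟩)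
      · refine ⟨by simp, fun a ha => ?_, ?_⟩
        · rw [List.eq_of_mem_replicate ha]
          exact mem_insert_self _ _
        · by_cases htm : tp m
          · refine ⟨[], List.replicate k m, rfl, List.Pairwise.nil, ?_⟩
            rw [AL, List.pairwise_replicate]
            exact Or.inr (Or.inr ⟨rfl, htm⟩)
          · refine ⟨List.replicate k m, [], by simp, ?_, List.Pairwise.nil⟩
            rw [DL, List.pairwise_replicate]
            refine Or.inr fun h => ?_
            rcases h with h | h
            · exact lt_irrefl _ h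
            · exact htm h.2
      · have h1 := hmemI t ht
        rw [he]
        simp only
        refine ⟨by rw [length_zm]; omega, fun a ha => ?_,
          Hk_zm tp A m hm _ _ h1.2.1 _ h1.2.2.2.1 h1.2.2.2.2.1⟩
        rw [zm] at ha
        split_ifs at ha
        · rcases List.mem_append.mp ha with ha | ha
          · rw [List.eq_of_mem_replicate ha]
            exact mem_insert_self _ _
          · rcases List.mem_append.mp ha with ha | ha
            · exact mem_insert_of_mem (h1.2.2.2.1 a ha)
            · rw [List.eq_of_mem_replicate ha]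
              exact mem_insert_self _ _
        · rcases List.mem_append.mp ha with ha | ha
          · rw [List.eq_of_mem_replicate ha]
            exact mem_insert_self _ _
          · rcases List.mem_append.mp ha with ha | ha
            · exact mem_insert_of_mem (h1.2.2.2.1 a ha)
            · rw [List.eq_of_mem_replicate ha]
              exact mem_insert_self _ _
  have hnot : List.replicate k m ∉ I.image e := by
    rw [mem_image]
    rintro ⟨t, ht, h1⟩
    have h2 := hne t ht
    have h4 := (hmemI t ht).2.2.2.1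
    obtain ⟨c, u, hcu⟩ := List.exists_cons_of_ne_nil h2
    have h5 := hm c (h4 c (by rw [hcu]; simp))
    have h3 : c ∈ List.replicate k m := by
      rw [← h1, he]
      simp only
      rw [zm, hcu]
      split_ifs <;> simp
    have := List.eq_of_mem_replicate h3
    rw [this] at h5
    exact lt_irrefl _ h5
  rw [hset, sum_insert hnot, sum_image hinj]
  congr 1
  · simp
  rw [hI, sum_sigma, sum_product]
  refine sum_congr rfl fun i hi => ?_
  rw [sum_range_succ, sum_range_one, sum_filter, sum_filter, ← sum_add_distrib, mul_sum]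
  refine sum_congr rfl fun u _ => ?_
  simp only [he]
  rw [prod_zm, prod_zm]
  rcases Nat.eq_zero_or_pos i with rfl | hi0
  · simp [w]
  · have e1 : 0 + (i - 0) = i := by omega
    have e2 : 1 + (i - 1) = i := by omega
    rw [e1, e2, if_pos (Nat.zero_le i), if_pos (show 1 ≤ i from hi0), w, if_neg (by omega)]
    ring

/-- hook words counted twice (once for the empty word). -/
noncomputable def HQ (tp : α → Prop) (f : α → ℝ) (A : Finset α) (k : ℕ) : ℝ :=
  if k = 0 then 1 else 2 * ∑ u ∈ HA tp A k, (u.map f).prod

theorem HQ_insert (tp : α → Prop) (f : α → ℝ) (A : Finset α) (m : α) (hm : ∀ a ∈ A, a < m)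
    (k : ℕ) : HQ tp f (insert m A) k
      = ∑ i ∈ range (k + 1), w i * f m ^ i * HQ tp f A (k - i) := by
  rcases Nat.eq_zero_or_pos k with rfl | hk
  · simp [HQ, w]
  · rw [sum_range_succ, Nat.sub_self]
    simp only [HQ, if_true]
    rw [if_neg (by omega), sum_HA_insert tp f A m hm k, mul_add, add_comm, mul_sum]
    congr 1
    · refine sum_congr rfl fun i hi => ?_
      rw [mem_range] at hi
      rw [if_neg (by omega)]
      ring
    · rw [w, if_neg (by omega)]
      ring

theorem HQ_eq_Q (x : ℕ → ℝ) (tp : α → Prop) (f : α → ℝ) (φ : α → ℕ) (A : Finset α) :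
    ∀ (J : Finset ℕ), Set.InjOn x J → (∀ j ∈ J, x j ≠ 0) →
      (∀ a ∈ A, f a ≠ 0 → f a = x (φ a)) →
      (∀ a ∈ A, f a ≠ 0 → φ a ∈ J) → (∀ j ∈ J, ∃ a ∈ A, f a ≠ 0 ∧ φ a = j) →
      (∀ a ∈ A, ∀ b ∈ A, f a ≠ 0 → f b ≠ 0 → φ a = φ b → a = b) →
      ∀ k, HQ tp f A k = Q x J k := by
  induction A using Finset.induction_on_max with
  | empty =>
    intro J _ _ _ _ hsurj _ k
    have hJ : J = ∅ := by
      rw [eq_empty_iff_forall_notMem]
      intro j hj
      obtain ⟨a, ha, -⟩ := hsurj j hj
      exact absurd ha (notMem_empty a)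
    rw [hJ, HQ, Q, P_one, sum_empty]
    rcases Nat.eq_zero_or_pos k with rfl | hk
    · simp
    · rw [if_neg (by omega), if_neg (by omega)]
      congr 1
      refine sum_eq_zero fun u hu => ?_
      rw [mem_HA] at hu
      exfalso
      cases u with
      | nil =>
        have := hu.1
        rw [List.length_nil] at this
        omega
      | cons a u => exact absurd (hu.2.1 a (by simp)) (notMem_empty a)
  | insert m A hm ih =>
    intro J hx h0 hf hmap hsurj hinj k
    rw [HQ_insert tp f A m hm k]
    by_cases hfm : f m = 0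
    · have h1 : ∀ i ∈ range (k + 1), i ≠ 0 → w i * f m ^ i * HQ tp f A (k - i) = 0 := by
        intro i _ hi
        rw [hfm, zero_pow hi, mul_zero, zero_mul]
      rw [sum_eq_single_of_mem 0 (mem_range.mpr (by omega)) h1]
      rw [w, if_pos rfl, pow_zero, one_mul, one_mul, Nat.sub_zero]
      refine ih J hx h0 (fun a ha => hf a (mem_insert_of_mem ha))
        (fun a ha => hmap a (mem_insert_of_mem ha)) (fun j hj => ?_)
        (fun a ha b hb => hinj a (mem_insert_of_mem ha) b (mem_insert_of_mem hb)) k
      obtain ⟨a, ha, h2, h3⟩ := hsurj j hj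
      rcases mem_insert.mp ha with rfl | ha
      · exact absurd hfm h2
      · exact ⟨a, ha, h2, h3⟩
    · have hmm := mem_insert_self m A
      have hφm := hmap m hmm hfm
      have hmA : m ∉ A := fun h => lt_irrefl _ (hm m h)
      rw [Q_sum x J hx h0 hφm k]
      refine sum_congr rfl fun i _ => ?_
      rw [hf m hmm hfm]
      congr 1
      refine ih (J.erase (φ m)) (hx.mono fun t ht => mem_of_mem_erase ht)
        (fun j hj => h0 j (mem_of_mem_erase hj)) (fun a ha => hf a (mem_insert_of_mem ha))
        (fun a ha hfa => mem_erase.mpr ⟨fun h => ?_, hmap a (mem_insert_of_mem ha) hfa⟩)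
        (fun j hj => ?_)
        (fun a ha b hb => hinj a (mem_insert_of_mem ha) b (mem_insert_of_mem hb)) (k - i)
      · have := hinj a (mem_insert_of_mem ha) m hmm hfa hfm h
        rw [this] at ha
        exact hmA ha
      · obtain ⟨hj1, hj2⟩ := mem_erase.mp hj
        obtain ⟨a, ha, h2, h3⟩ := hsurj j hj2
        rcases mem_insert.mp ha with rfl | ha
        · exact absurd h3.symm hj1
        · exact ⟨a, ha, h2, h3⟩

/-- **Hgf**: hook words in commuting letters of any types. -/
theorem hgf [Fintype α] (x : ℕ → ℝ) (J : Finset ℕ) (hx : Set.InjOn x J) (h0 : ∀ j ∈ J, x j ≠ 0)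
    (tp : α → Prop) (f : α → ℝ) (φ : α → ℕ)
    (hf : ∀ a, f a ≠ 0 → f a = x (φ a) ∧ φ a ∈ J)
    (hsurj : ∀ j ∈ J, ∃ a, f a ≠ 0 ∧ φ a = j)
    (hinj : ∀ a b, f a ≠ 0 → f b ≠ 0 → φ a = φ b → a = b) (k : ℕ) (hk : 1 ≤ k) :
    ∑ u ∈ HW (RR tp) k, (u.map f).prod = P x [k] J := by
  have h1 := HQ_eq_Q x tp f φ univ J hx h0 (fun a _ h => (hf a h).1) (fun a _ h => (hf a h).2)
    (fun j hj => by
      obtain ⟨a, h⟩ := hsurj j hj
      exact ⟨a, mem_univ a, h⟩) (fun a _ b _ => hinj a b) k
  rw [HQ, Q, if_neg (by omega), if_neg (by omega)] at h1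
  have h2 : HA tp univ k = HW (RR tp) k := rfl
  rw [h2] at h1
  linarith

theorem mem_HW {β : Type*} [Fintype β] (R : β → β → Prop) (k : ℕ) (u : List β) :
    u ∈ HW R k ↔ u.length = k ∧ Hk R u := by
  classical
  rw [HW, mem_filter, mem_listsOver]
  simp

/-- the sum over the chains with one row. -/
theorem MM_one {β : Type*} [Fintype β] {S : Type*} [Ring S] (R : β → β → Prop) (f : β → S)
    (k : ℕ) (hk : 1 ≤ k) : MM R f [k] = ∑ u ∈ HW R k, (u.map f).prod := by
  classical
  rw [MM]
  refine (sum_nbij (fun u => [u]) ?_ ?_ ?_ ?_).symm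
  · intro u hu
    rw [mem_HW] at hu
    rw [SS, mem_filter, shp, mem_image]
    refine ⟨⟨(u, []), ?_, rfl⟩, ?_⟩
    · rw [mem_product, mem_listsOver]
      simp only [shp, mem_singleton, and_true]
      exact ⟨hu.1, fun r _ => mem_univ r⟩
    · rw [Ch]
      refine ⟨hu.2, ?_, trivial, by simp⟩
      rintro rfl
      have := hu.1
      rw [List.length_nil] at this
      omega
  · intro u _ v _ h
    simpa using h
  · intro T hT
    rw [mem_coe, SS, mem_filter, shp, mem_image] at hT
    obtain ⟨⟨⟨u, T'⟩, h1, rfl⟩, h2⟩ := hT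
    rw [mem_product, mem_listsOver] at h1
    simp only [shp, mem_singleton] at h1
    refine ⟨u, ?_, by rw [h1.2]⟩
    rw [mem_coe, mem_HW]
    rw [Ch] at h2
    exact ⟨h1.1.1, h2.1⟩
  · intro u _
    simp [FT]

end Pool.H51.PR
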