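import Mathlib
import Pool.Agent.H51.PR.Paths

/-!
MP_1e629d_co: a family with the Pieri rule `Pie` is determined by its values on the one row
partitions: a subring (and more generally an additive subgroup closed under the products needed)
which contains all `Φ [k]` contains all `Φ ν`, `ν` strict.
-/

set_option autoImplicit false

open Finset

namespace Pool.H51.PR

open Pool.Agent.H71.RW

/-- A hook type path either keeps the number of rows or makes exactly one new row, whose length
is at most the number of steps; if it is the number of steps, all boxes are in the new row. -/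
theorem path_end (l : List ℕ) (hl : St l) (ρ : List ℕ) (hk : Hk Rp ρ) (hA : Adm l ρ) :
    (addL l ρ).length = l.length ∨ ∃ (l₂ : List ℕ) (c : ℕ), addL l ρ = l₂ ++ [c] ∧
      l₂.length = l.length ∧ 1 ≤ c ∧ c ≤ ρ.length ∧
      (c = ρ.length → ρ = List.replicate ρ.length l.length ∧ l₂ = l) := by
  induction l generalizing ρ with
  | nil =>
    cases h : ρ with
    | nil => left; rfl
    | cons r ρ' =>
      right
      have h1 : ρ ∈ HP [] ρ.length := (mem_HP [] ρ.length ρ).mpr ⟨rfl, hk, hA⟩
      have hlen : 1 ≤ ρ.length := by rw [h]; simp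
      rw [HP_nil _ hlen, mem_singleton] at h1
      refine ⟨[], ρ.length, ?_, rfl, hlen, by rw [← h], fun _ => ⟨?_, rfl⟩⟩
      · rw [← h]
        conv_lhs => rw [h1]
        rw [addL_nil_zeros _ hlen]
        rfl
      · rw [← h]
        exact h1
  | cons a l ih =>
    obtain ⟨ε, j, σ, hε, rfl, hσ⟩ := Hk_dec ρ hk
    have hs := (St_cons_iff a l).mp hl
    rw [Adm_zz a ε j l σ hl] at hA
    rw [addL_zz, length_zz]
    rcases ih hs.2.1 σ hσ hA.1 with h1 | ⟨l₂, c, h1, h2, h3, h4, h5⟩
    · left
      simp [h1]
    · right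
      refine ⟨(a + (ε + j)) :: l₂, c, by rw [h1]; rfl, by simp [h2], h3, by omega, fun hc => ?_⟩
      have hε0 : ε = 0 := by omega
      have hj0 : j = 0 := by omega
      subst hε0 hj0
      obtain ⟨h6, h7⟩ := h5 (by omega)
      refine ⟨?_, by rw [h7]; simp⟩
      rw [zz, List.replicate_zero, List.nil_append, List.append_nil, zero_add, zero_add]
      conv_lhs => rw [h6]
      rw [List.map_replicate, List.length_cons]

theorem addL_new (l : List ℕ) (k : ℕ) :
    addL (l ++ [k]) (List.replicate 1 l.length) = l ++ [k + 1] := by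
  induction l with
  | nil => rfl
  | cons a l ih =>
    simp only [List.replicate_one, addL, List.cons_append, List.length_cons, add] at ih ⊢
    rw [ih]

theorem addL_new' (l : List ℕ) (n : ℕ) :
    addL l (List.replicate (n + 1) l.length) = l ++ [n + 1] := by
  induction n with
  | zero =>
    induction l with
    | nil => rfl
    | cons a l ih =>
      simp only [zero_add, List.replicate_one, addL, List.length_cons, add] at ih ⊢
      rw [ih]
      rfl
  | succ n ih =>
    rw [List.replicate_succ', addL_append, ih]
    exact addL_new l (n + 1)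

theorem St_append_single (l : List ℕ) (k : ℕ) (h : St (l ++ [k])) :
    St l ∧ 0 < k ∧ ∀ n, 0 < n → n ≤ k → St (l ++ [n]) := by
  induction l with
  | nil =>
    simp only [List.nil_append, St] at h ⊢
    exact ⟨trivial, h.1, fun n hn _ => ⟨hn, trivial, by simp⟩⟩
  | cons a l ih =>
    rw [List.cons_append] at h
    have hs := (St_cons_iff a (l ++ [k])).mp h
    obtain ⟨h1, h2, h3⟩ := ih hs.2.1
    refine ⟨(St_cons_iff a l).mpr ⟨hs.1, h1, ?_⟩, h2, fun n hn hnk => ?_⟩
    · cases l with
      | nil =>
        simp only [hd, List.headD_nil]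
        exact hs.1
      | cons c l =>
        have := hs.2.2
        simpa [hd] using this
    · rw [List.cons_append, St_cons_iff]
      refine ⟨hs.1, h3 n hn hnk, ?_⟩
      cases l with
      | nil =>
        have := hs.2.2
        simp only [hd, List.nil_append, List.headD_cons] at this ⊢
        omega
      | cons c l =>
        have := hs.2.2
        simpa [hd] using this

theorem Adm_new (l : List ℕ) (k : ℕ) (h : St (l ++ [k])) (n : ℕ) (hn : n ≤ k) :
    Adm l (List.replicate n l.length) := by
  obtain ⟨-, -, h3⟩ := St_append_single l k h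
  induction n with
  | zero => simp [Adm]
  | succ n ih =>
    rw [List.replicate_succ', Adm_append]
    refine ⟨ih (by omega), ?_⟩
    have h4 : addL (addL l (List.replicate n l.length)) [l.length]
        = addL l (List.replicate (n + 1) l.length) := by
      rw [List.replicate_succ', addL_append]
    have h5 : add (addL l (List.replicate n l.length)) l.length = l ++ [n + 1] := by
      have h6 := addL_new' l n
      rw [← h4] at h6
      exact h6
    refine ⟨?_, trivial⟩
    rw [h5]
    exact h3 (n + 1) (by omega) hn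

theorem new_mem_HP (l : List ℕ) (k : ℕ) (h : St (l ++ [k])) :
    List.replicate k l.length ∈ HP l k := by
  rw [mem_HP]
  refine ⟨by simp, ⟨[], List.replicate k l.length, rfl, List.Pairwise.nil, ?_⟩,
    Adm_new l k h k le_rfl⟩
  rw [AL, List.pairwise_replicate]
  right
  simp [Rp]

/-- **Uniqueness**: a subring which contains all `Φ [k]` contains all `Φ l`, `l` strict. -/
theorem uni {S : Type*} [Ring S] (Φ : List ℕ → S) (hΦ : Pie Φ) (T : Subring S)
    (hT : ∀ k : ℕ, 1 ≤ k → Φ [k] ∈ T) : ∀ l : List ℕ, St l → Φ l ∈ T := by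
  classical
  suffices H : ∀ n : ℕ, ∀ l : List ℕ, l.length = n → St l → Φ l ∈ T from
    fun l hl => H l.length l rfl hl
  intro n
  induction n with
  | zero =>
    intro l hl _
    rw [List.length_eq_zero_iff.mp hl, hΦ.1]
    exact T.one_mem
  | succ n ih =>
    suffices H : ∀ k : ℕ, ∀ l : List ℕ, l.length = n → St (l ++ [k]) → Φ (l ++ [k]) ∈ T by
      intro l hl hSt
      have hne : l ≠ [] := by
        rintro rfl
        simp at hl
      rw [← List.dropLast_append_getLast hne] at hSt ⊢
      exact H _ _ (by simp [hl]) hSt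
    intro k
    induction k using Nat.strong_induction_on with
    | _ k ihk =>
      intro l hl hSt
      obtain ⟨h1, h2, h3⟩ := St_append_single l k hSt
      have hp := hΦ.2 l h1 k h2
      have hmem := new_mem_HP l k hSt
      rw [← add_sum_erase _ _ hmem] at hp
      obtain ⟨m, rfl⟩ : ∃ m, k = m + 1 := ⟨k - 1, by omega⟩
      rw [addL_new'] at hp
      have hrest : ∑ ρ ∈ (HP l (m + 1)).erase (List.replicate (m + 1) l.length),
          Φ (addL l ρ) ∈ T := by
        refine sum_mem fun ρ hρ => ?_
        obtain ⟨hne, hρ⟩ := mem_erase.mp hρ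
        obtain ⟨hlen, hk, hA⟩ := (mem_HP _ _ _).mp hρ
        have hSt' := St_addL l ρ h1 hA
        rcases path_end l h1 ρ hk hA with h4 | ⟨l₂, c, h4, h5, h6, h7, h8⟩
        · exact ih _ (by rw [h4, hl]) hSt'
        · rw [h4] at hSt' ⊢
          refine ihk c ?_ l₂ (by rw [h5, hl]) hSt'
          rw [← hlen]
          refine lt_of_le_of_ne h7 fun hc => hne ?_
          rw [(h8 hc).1, hlen]
      have h9 : Φ (l ++ [m + 1]) = Φ l * Φ [m + 1]
          - ∑ ρ ∈ (HP l (m + 1)).erase (List.replicate (m + 1) l.length), Φ (addL l ρ) := by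
        rw [hp]
        abel
      rw [h9]
      exact T.sub_mem (T.mul_mem (ih l hl h1) (hT _ (by omega))) hrest

/-- two families with the Pieri rule which agree on the one row partitions agree. -/
theorem uni_eq {S : Type*} [Ring S] (Φ Ψ : List ℕ → S) (hΦ : Pie Φ) (hΨ : Pie Ψ)
    (h : ∀ k : ℕ, 1 ≤ k → Φ [k] = Ψ [k]) : ∀ l : List ℕ, St l → Φ l = Ψ l := by
  have hP : Pie (fun l => ((Φ l, Ψ l) : S × S)) := by
    refine ⟨Prod.ext hΦ.1 hΨ.1, fun l hl k hk => ?_⟩
    rw [Prod.mk_mul_mk, hΦ.2 l hl k hk, hΨ.2 l hl k hk]
    ext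
    · simp [Prod.fst_sum]
    · simp [Prod.snd_sum]
  intro l hl
  let T : Subring (S × S) :=
    { carrier := {p | p.1 = p.2}
      mul_mem' := fun {a b} ha hb => by
        simp only [Set.mem_ofPred_eq, Prod.fst_mul, Prod.snd_mul] at *
        rw [ha, hb]
      one_mem' := rfl
      add_mem' := fun {a b} ha hb => by
        simp only [Set.mem_ofPred_eq, Prod.fst_add, Prod.snd_add] at *
        rw [ha, hb]
      zero_mem' := rfl
      neg_mem' := fun {a} ha => by
        simp only [Set.mem_ofPred_eq, Prod.fst_neg, Prod.snd_neg] at *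
        rw [ha] }
  exact uni (fun l => ((Φ l, Ψ l) : S × S)) hP T (fun k hk => h k hk) l hl

/-- everything which commutes with all `Φ [k]` commutes with all `Φ l`. -/
theorem uni_comm {S : Type*} [Ring S] (Φ : List ℕ → S) (hΦ : Pie Φ) (D : S)
    (h : ∀ k : ℕ, 1 ≤ k → Commute (Φ [k]) D) : ∀ l : List ℕ, St l → Commute (Φ l) D := by
  intro l hl
  have h1 := uni Φ hΦ (Subring.centralizer {D}) (fun k hk => by
    rw [Subring.mem_centralizer_iff]
    intro g hg
    rw [Set.mem_singleton_iff] at hg
    rw [hg]
    exact (h k hk).symm) l hl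
  rw [Subring.mem_centralizer_iff] at h1
  exact (h1 D rfl).symm

end Pool.H51.PR
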