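import Mathlib
import Pool.Agent.H51.PR.Uni
import Pool.Agent.H51.PR.Hgf
import Pool.Agent.H32.TW.Diag
import Pool.Agent.H35.Tw.RelD
import Pool.Agent.H19.RWp.Comm

/-!
MP_1e629d_co: assembly of part (D): `partD` from the peak rule.
-/

set_option autoImplicit false

open Finset Polynomial

namespace Pool.H51.PR

open Pool.H53.RQ Pool.Agent.H71.RW Pool.Agent.H19.RWi

/-- the peak rule for a relation. -/
def PeakRule {α : Type*} (R : α → α → Prop) : Prop :=
  ∀ (T T2 : List (List α)) (w : List α) (ρ : List ℕ), Ch R T → InsL R T w T2 ρ →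
    (Hk R w ↔ Hk Rp ρ)

/-- in a commutative ring all relations hold. -/
theorem rels_comm {α : Type*} (R : α → α → Prop) (f : α → ℝ) : Rels R f :=
  ⟨fun a b c _ _ => by ring, fun a b c _ _ => Or.inl (by ring)⟩

theorem RR_eq_Rl (K : ℕ) (pos : ℕ → Bool) :
    RR (fun a : Fin (K + 1) => Pool.Agent.H35.Tw.tpl pos a = true)
      = Pool.Agent.H35.Tw.Rl K pos := by
  funext a b
  apply propext
  unfold RR Pool.Agent.H35.Tw.Rl Pool.Agent.H35.Tw.Rn
  rw [Fin.lt_def, Fin.ext_iff]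

/-- the decreasing list of a set of positive numbers is strict. -/
theorem St_dl (s : Finset ℕ) (hs : 0 ∉ s) : St (dl s) := by
  have key : ∀ l : List ℕ, l.Pairwise (· > ·) → (∀ a ∈ l, 0 < a) → St l := by
    intro l
    induction l with
    | nil => intro _ _; trivial
    | cons a l ih =>
      intro h h0
      rw [List.pairwise_cons] at h
      refine ⟨h0 a (by simp), ih h.2 (fun b hb => h0 b (List.mem_cons_of_mem _ hb)), ?_⟩
      intro m hm
      exact h.1 m (List.mem_of_mem_head? hm)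
  refine key _ ?_ ?_
  · unfold dl
    rw [List.pairwise_reverse]
    exact s.sortedLT_sort.pairwise
  · intro a ha
    unfold dl at ha
    rw [List.mem_reverse, Finset.mem_sort] at ha
    exact Nat.pos_of_ne_zero fun h => hs (h ▸ ha)

/-- evaluation of the scalar chain sums. -/
theorem MM_lv (K : ℕ) (y : ℕ → ℝ) (pos : ℕ → Bool) (hy : ∀ i, i < K → 0 < y i)
    (hyi : Set.InjOn y (range K)) (hpk : PeakRule (Pool.Agent.H35.Tw.Rl K pos))
    (l : List ℕ) (hl : St l) (u : Finset ℕ) :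
    MM (Pool.Agent.H35.Tw.Rl K pos) (Pool.Agent.H32.TW.lv K y pos u) l
      = P y l (Pool.Agent.H32.TW.Jset K pos u) := by
  have hJ : Pool.Agent.H32.TW.Jset K pos u ⊆ range K := filter_subset _ _
  have hx : Set.InjOn y (Pool.Agent.H32.TW.Jset K pos u) := hyi.mono fun i hi => hJ hi
  have h0 : ∀ j ∈ Pool.Agent.H32.TW.Jset K pos u, y j ≠ 0 := fun j hj =>
    (hy j (mem_range.mp (hJ hj))).ne'
  refine uni_eq (MM (Pool.Agent.H35.Tw.Rl K pos) (Pool.Agent.H32.TW.lv K y pos u))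
    (fun l => P y l (Pool.Agent.H32.TW.Jset K pos u))
    (pie_of_peak (Pool.Agent.H35.Tw.sup_Rl K pos) (rels_comm _ _) hpk) (pie_P y _ hx h0)
    (fun k hk => ?_) l hl
  rw [Pool.H51.PR.MM_one _ _ k hk, ← RR_eq_Rl]
  have hlv : ∀ a : Fin (K + 1), Pool.Agent.H32.TW.lv K y pos u a ≠ 0 →
      (a : ℕ) ≠ 0 ∧ ((a : ℕ) - 1 ∈ u ↔ pos ((a : ℕ) - 1) = true) ∧
        Pool.Agent.H32.TW.lv K y pos u a = y ((a : ℕ) - 1) := by
    intro a ha
    unfold Pool.Agent.H32.TW.lv at ha ⊢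
    split_ifs at ha ⊢ with h1 h2
    · exact absurd rfl ha
    · exact ⟨h1, h2, rfl⟩
    · exact absurd rfl ha
  refine hgf y (Pool.Agent.H32.TW.Jset K pos u) hx h0 _ (Pool.Agent.H32.TW.lv K y pos u)
    (fun a => (a : ℕ) - 1) (fun a ha => ?_) (fun j hj => ?_) (fun a b ha hb hab => ?_) k hk
  · obtain ⟨h1, h2, h3⟩ := hlv a ha
    refine ⟨h3, ?_⟩
    unfold Pool.Agent.H32.TW.Jset
    rw [mem_filter, mem_range]
    have := a.2
    exact ⟨by omega, h2⟩
  · have hjK : j < K := mem_range.mp (hJ hj)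
    have hj2 : (j ∈ u ↔ pos j = true) := by
      unfold Pool.Agent.H32.TW.Jset at hj
      exact (mem_filter.mp hj).2
    refine ⟨⟨j + 1, by omega⟩, ?_, by simp⟩
    unfold Pool.Agent.H32.TW.lv
    simp only [Nat.add_eq_zero_iff, one_ne_zero, and_false, if_false, Nat.add_sub_cancel]
    rw [if_pos hj2]
    exact (hy j hjK).ne'
  · have h1 := (hlv a ha).1
    have h2 := (hlv b hb).1
    apply Fin.ext
    have hab' : (a : ℕ) - 1 = (b : ℕ) - 1 := hab
    omega

/-- **Part (D)** from the peak rule. -/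
theorem partD_of_peak (K : ℕ) (y : ℕ → ℝ) (pos : ℕ → Bool) (hy : ∀ i, i < K → 0 < y i)
    (hinj : ∀ I ⊆ range K, ∀ J ⊆ range K, ∑ i ∈ I, y i = ∑ i ∈ J, y i → I = J)
    (hpk : PeakRule (Pool.Agent.H35.Tw.Rl K pos))
    (s : Finset ℕ) (hs : 0 ∉ s) (g : Polynomial ℝ)
    (hg : ∀ J ⊆ range K, g.eval (∑ i ∈ J, y i) = P y (dl s) J)
    (u v : Finset ℕ) (hu : u ⊆ range K) (hv : v ⊆ range K) :
    0 ≤ me (Polynomial.aeval (Dop K y pos) g) v u := by
  have hyi : Set.InjOn y (range K) := by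
    intro i hi j hj hij
    have h1 := hinj {i} (by simpa using hi) {j} (by simpa using hj) (by simpa using hij)
    simpa using h1
  have hl := St_dl s hs
  refine Pool.Agent.H32.TW.partD_of K y pos hy hinj (dl s) g hg (Pool.Agent.H35.Tw.Rl K pos) ?_
    (fun u _ => MM_lv K y pos hy hyi hpk (dl s) hl u) u v hu hv
  have hR : Rels (Pool.Agent.H35.Tw.Rl K pos) (Pool.Agent.H32.TW.lf K y pos) :=
    Pool.Agent.H35.Tw.rels_lett K y pos
  have hPie := pie_of_peak (Pool.Agent.H35.Tw.sup_Rl K pos) hR hpk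
  have hc := uni_comm (MM (Pool.Agent.H35.Tw.Rl K pos) (Pool.Agent.H32.TW.lf K y pos)) hPie
    (MulOpposite.op (Dop K y pos)) (fun k hk => by
      have h2 := HW_comm (Pool.Agent.H35.Tw.sup_Rl K pos) hR k
      rw [Pool.Agent.H32.TW.sum_lf] at h2
      rw [Pool.H51.PR.MM_one _ _ k hk]
      exact h2) (dl s) hl
  exact hc

end Pool.H51.PR
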