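import Mathlib
import Pool.Agent.H51.PR.AsmD
import Pool.Agent.H42.PK.Peak

/-!
MP_1e629d_co: part (D), complete (the statement of `RQ/PD.lean`).
-/

set_option autoImplicit false

open Finset

namespace Pool.H51.PR

open Pool.H53.RQ

/-- **Part (D)**: the operator of multiplication by a Schur `P` polynomial has nonnegative entries,
for any signs of the nodes. -/
theorem partD (K : ℕ) (y : ℕ → ℝ) (pos : ℕ → Bool) (hy : ∀ i, i < K → 0 < y i)
    (hinj : ∀ I ⊆ range K, ∀ J ⊆ range K, ∑ i ∈ I, y i = ∑ i ∈ J, y i → I = J)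
    (s : Finset ℕ) (hs : 0 ∉ s) (g : Polynomial ℝ)
    (hg : ∀ J ⊆ range K, g.eval (∑ i ∈ J, y i) = P y (dl s) J)
    (u v : Finset ℕ) (hu : u ⊆ range K) (hv : v ⊆ range K) :
    0 ≤ me (Polynomial.aeval (Dop K y pos) g) v u :=
  partD_of_peak K y pos hy hinj
    (Pool.Agent.H42.PK.peak (Pool.Agent.H35.Tw.sup_Rl K pos)) s hs g hg u v hu hv

end Pool.H51.PR
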